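import Pool.Agent.H67.FK.Trunc

/-!
# The two term complex `C → C_x` for a complex of `F`-finite `F`-modules

Helper file (helper67) for `MP_95a866_al`.
-/

set_option autoImplicit false

open Finset

universe u

namespace Pool.Agent.H67.FK

open LocalizedModule

section loc

variable {R : Type u} [CommRing R] {p : ℕ} {M : Type u} [AddCommGroup M] [Module R M]
  (S : Submonoid R)

lemma mk_add_same (a b : M) (s : S) :
    (mk (a + b) s : LocalizedModule S M) = mk a s + mk b s := by
  rw [mk_add_mk]
  refine mk_eq.2 ⟨1, ?_⟩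
  simp only [smul_add, smul_smul]

/-- the semilinear map induced on a localization -/
noncomputable def locφ (φ : M →+ M) (hφ : ∀ (r : R) x, φ (r • x) = r ^ p • φ x) :
    LocalizedModule S M →+ LocalizedModule S M :=
  AddMonoidHom.mk' (fun v => v.liftOn (fun a => mk (φ a.1) (a.2 ^ p)) (by
    rintro ⟨m, s⟩ ⟨m', s'⟩ ⟨u, hu⟩
    refine mk_eq.2 ⟨u ^ p, ?_⟩
    have := congrArg φ hu
    simp only [Submonoid.smul_def] at this
    rw [hφ, hφ, hφ, hφ] at this
    simpa only [Submonoid.smul_def, SubmonoidClass.coe_pow] using this)) (by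
  intro v w
  induction v using LocalizedModule.induction_on with
  | h m s =>
    induction w using LocalizedModule.induction_on with
    | h m' s' =>
      rw [mk_add_mk, liftOn_mk, liftOn_mk, liftOn_mk, mk_add_mk]
      simp only [Submonoid.smul_def, map_add, hφ, mul_pow, SubmonoidClass.coe_pow])

lemma locφ_mk (φ : M →+ M) (hφ : ∀ (r : R) x, φ (r • x) = r ^ p • φ x) (m : M) (s : S) :
    locφ S φ hφ (mk m s) = mk (φ m) (s ^ p) := rfl

lemma locφ_smul (φ : M →+ M) (hφ : ∀ (r : R) x, φ (r • x) = r ^ p • φ x) (r : R)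
    (v : LocalizedModule S M) : locφ S φ hφ (r • v) = r ^ p • locφ S φ hφ v := by
  induction v using LocalizedModule.induction_on with
  | h m s => rw [smul'_mk, locφ_mk, locφ_mk, hφ, smul'_mk]

/-- the map induced by a linear map on a localization -/
noncomputable def locd (d : M →ₗ[R] M) : LocalizedModule S M →ₗ[R] LocalizedModule S M :=
  (LocalizedModule.map S d).restrictScalars R

lemma locd_mk (d : M →ₗ[R] M) (m : M) (s : S) : locd S d (mk m s) = mk (d m) s := by
  change LocalizedModule.map S d (mk m s) = _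
  rw [map_mk]

lemma locd_locd {d : M →ₗ[R] M} (hd : ∀ x, d (d x) = 0) (v : LocalizedModule S M) :
    locd S d (locd S d v) = 0 := by
  induction v using LocalizedModule.induction_on with
  | h m s => rw [locd_mk, locd_mk, hd, zero_mk]

lemma locd_locφ {d : M →ₗ[R] M} {φ : M →+ M} (hφ : ∀ (r : R) x, φ (r • x) = r ^ p • φ x)
    (hd : ∀ x, φ (d x) = d (φ x)) (v : LocalizedModule S M) :
    locφ S φ hφ (locd S d v) = locd S d (locφ S φ hφ v) := by
  induction v using LocalizedModule.induction_on with
  | h m s => rw [locd_mk, locφ_mk, locφ_mk, locd_mk, hd]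

/-- common denominators -/
lemma exists_common_denom {n : ℕ} (v : Fin n → LocalizedModule S M) :
    ∃ (s : S) (m : Fin n → M), ∀ i, v i = mk (m i) s := by
  induction n with
  | zero => exact ⟨1, fun i => i.elim0, fun i => i.elim0⟩
  | succ n ih =>
    obtain ⟨s, m, h⟩ := ih (fun i => v i.succ)
    obtain ⟨⟨m0, s0⟩, h0⟩ : ∃ a : M × S, v 0 = mk a.1 a.2 := by
      generalize v 0 = w
      induction w using LocalizedModule.induction_on with
      | h m s => exact ⟨(m, s), rfl⟩
    refine ⟨s * s0, Fin.cons (s • m0) (fun i => s0 • m i), fun i => ?_⟩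
    refine Fin.cases ?_ (fun i => ?_) i
    · rw [h0, Fin.cons_zero]
      exact mk_eq.2 ⟨1, by simp only [smul_smul]; rw [mul_comm s0 s]⟩
    · rw [h i, Fin.cons_succ]
      exact mk_eq.2 ⟨1, by simp only [smul_smul]⟩

theorem locφ_feq {φ : M →+ M} (hφ : ∀ (r : R) x, φ (r • x) = r ^ p • φ x) (h : FEq R p φ)
    (hp : 0 < p) : FEq R p (locφ S φ hφ) := by
  intro n r v hv
  obtain ⟨s, m, hm⟩ := exists_common_denom S v
  have h1 : mk (∑ i, r i • φ (m i)) (s ^ p) = (0 : LocalizedModule S M) := by
    rw [← hv]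
    have : ∀ i, r i • locφ S φ hφ (v i) = mk (r i • φ (m i)) (s ^ p) := by
      intro i
      rw [hm i, locφ_mk, smul'_mk]
    simp only [this]
    have h2 : ∀ (t : S) (J : Finset (Fin n)) (a : Fin n → M),
        (mk (∑ i ∈ J, a i) t : LocalizedModule S M) = ∑ i ∈ J, mk (a i) t := by
      classical
      intro t J a
      induction J using Finset.induction_on with
      | empty => simp
      | insert i J hi ih =>
        rw [sum_insert hi, sum_insert hi, ← ih, mk_add_same]
    exact h2 _ _ _
  rw [← zero_mk (s ^ p), mk_eq] at h1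
  obtain ⟨u, hu⟩ := h1
  rw [smul_zero, smul_zero] at hu
  -- `(u s)^p` kills
  have h3 : ∑ i, r i • φ ((u * s : S) • m i) = 0 := by
    have : ∀ i, r i • φ ((u * s : S) • m i) = ((u : R) * (s : R)) ^ p • (r i • φ (m i)) := by
      intro i
      rw [Submonoid.smul_def, hφ, smul_comm, Submonoid.coe_mul]
    simp only [this]
    rw [← smul_sum, mul_pow]
    have h4 := congrArg (fun x => (u : R) ^ (p - 1) • x) hu
    simp only [Submonoid.smul_def, smul_zero, smul_smul, SubmonoidClass.coe_pow] at h4
    rw [← h4, ← mul_assoc, ← pow_succ, Nat.sub_add_cancel hp]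
  obtain ⟨k, b, c, hb, hc⟩ := h n r _ h3
  refine ⟨k, b, c, hb, fun l => ?_⟩
  have h5 : ∀ i, v i = mk ((u * s : S) • m i) (u * s * s) := by
    intro i
    rw [hm i]
    exact mk_eq.2 ⟨1, by simp only [smul_smul]; rw [mul_comm s (u * s)]⟩
  have h6 : ∀ (t : S) (J : Finset (Fin n)) (a : Fin n → M),
      (∑ i ∈ J, c l i • mk (a i) t : LocalizedModule S M) = mk (∑ i ∈ J, c l i • a i) t := by
    classical
    intro t J a
    induction J using Finset.induction_on with
    | empty => simp
    | insert i J hi ih =>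
      rw [sum_insert hi, sum_insert hi, ih, smul'_mk, ← mk_add_same]
  simp only [h5]
  rw [h6, hc l, zero_mk]

end loc

section glx

variable {R : Type u} [CommRing R] {p : ℕ} {M : Type u} [AddCommGroup M] [Module R M]
  (x : R)

/-- `x ^ N` as an element of `powers x` -/
def xp (N : ℕ) : Submonoid.powers x := ⟨x ^ N, N, rfl⟩

/-- `m ↦ m / x ^ N` -/
noncomputable def divx (M : Type u) [AddCommGroup M] [Module R M] (N : ℕ) :
    M →ₗ[R] LocalizedModule (Submonoid.powers x) M where
  toFun m := mk m (xp x N)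
  map_add' a b := by rw [← mk_add_same]
  map_smul' r a := by rw [RingHom.id_apply, smul'_mk]

lemma divx_apply (N : ℕ) (m : M) : divx x M N m = mk m (xp x N) := rfl

lemma divx_zero (m : M) : divx x M 0 m = mk m 1 := by
  rw [divx_apply]
  have : xp x 0 = 1 := Subtype.ext (pow_zero x)
  rw [this]

lemma exists_divx (v : LocalizedModule (Submonoid.powers x) M) : ∃ N m, v = divx x M N m := by
  induction v using LocalizedModule.induction_on with
  | h m s =>
    obtain ⟨_, N, rfl⟩ := s
    exact ⟨N, m, rfl⟩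

lemma divx_add (N k : ℕ) (m : M) : divx x M (N + k) (x ^ k • m) = divx x M N m := by
  rw [divx_apply, divx_apply]
  refine mk_eq.2 ⟨1, ?_⟩
  simp only [one_smul, Submonoid.smul_def, smul_smul, xp, pow_add]

lemma pow_smul_divx (N k : ℕ) (m : M) : x ^ k • divx x M (N + k) m = divx x M N m := by
  rw [← map_smul, divx_add]

lemma divx_eq_zero {N : ℕ} {m : M} (h : divx x M N m = 0) : ∃ a, x ^ a • m = 0 := by
  rw [divx_apply, ← zero_mk (xp x N), mk_eq] at h
  obtain ⟨⟨_, a, rfl⟩, h⟩ := h
  refine ⟨a + N, ?_⟩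
  simpa only [Submonoid.smul_def, smul_zero, smul_smul, xp, ← pow_add] using h

lemma locφ_divx (φ : M →+ M) (hφ : ∀ (r : R) x, φ (r • x) = r ^ p • φ x) (N : ℕ) (m : M) :
    locφ _ φ hφ (divx x M N m) = divx x M (N * p) (φ m) := by
  rw [divx_apply, locφ_mk, divx_apply]
  have : xp x N ^ p = xp x (N * p) := Subtype.ext (pow_mul x N p).symm
  rw [this]

lemma locd_divx (d : M →ₗ[R] M) (N : ℕ) (m : M) :
    locd _ d (divx x M N m) = divx x M N (d m) := locd_mk _ _ _ _

/-- division by `x` -/
noncomputable def dvx (M : Type u) [AddCommGroup M] [Module R M] :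
    LocalizedModule (Submonoid.powers x) M →ₗ[R] LocalizedModule (Submonoid.powers x) M :=
  divBy (xp x 1)

lemma dvx_divx (N : ℕ) (m : M) : dvx x M (divx x M N m) = divx x M (N + 1) m := by
  rw [dvx, divBy_apply, divx_apply, liftOn_mk, divx_apply]
  have : xp x N * xp x 1 = xp x (N + 1) := Subtype.ext (by simp [xp, pow_succ])
  rw [this]

lemma smul_dvx (v : LocalizedModule (Submonoid.powers x) M) : x • dvx x M v = v :=
  by
  have := mul_by_divBy (xp x 1) v
  simpa [xp, dvx] using this

lemma dvx_smul (v : LocalizedModule (Submonoid.powers x) M) : dvx x M (x • v) = v :=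
  by
  have := divBy_mul_by (xp x 1) v
  simpa [xp, dvx] using this

lemma smul_inj {v : LocalizedModule (Submonoid.powers x) M} (h : x • v = 0) : v = 0 := by
  rw [← dvx_smul x v, h, map_zero]

end glx

namespace FGC

variable {R : Type u} [CommRing R] {p c : ℕ}

section

variable (C : FGC R p) (x : R)

/-- the root of the localization -/
noncomputable def gl (n : ℤ) (e : ℕ) : Submodule R (LocalizedModule (Submonoid.powers x) C.X) :=
  (C.G n e).map (divx x C.X (p ^ e))

variable {C x}

lemma mem_gl {n : ℤ} {e : ℕ} {v : LocalizedModule (Submonoid.powers x) C.X} :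
    v ∈ C.gl x n e ↔ ∃ m ∈ C.G n e, divx x C.X (p ^ e) m = v := Submodule.mem_map

lemma divx_mem_gl {n : ℤ} {e e' N : ℕ} {m : C.X} (hm : m ∈ C.G n e) (he : e ≤ e')
    (hN : N ≤ p ^ e') : divx x C.X N m ∈ C.gl x n e' := by
  refine mem_gl.2 ⟨x ^ (p ^ e' - N) • m, Submodule.smul_mem _ _ (C.Gmono' n he hm), ?_⟩
  conv_lhs => rw [show p ^ e' = N + (p ^ e' - N) by omega]
  rw [show N + (p ^ e' - N) - N = p ^ e' - N by omega, divx_add]

lemma gl_mono [hp : Fact p.Prime] (n : ℤ) {e e' : ℕ} (h : e ≤ e') :
    C.gl x n e ≤ C.gl x n e' := by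
  intro v hv
  obtain ⟨m, hm, rfl⟩ := mem_gl.1 hv
  exact divx_mem_gl hm h (Nat.pow_le_pow_right hp.out.pos h)

lemma dvx_mem_gl [hp : Fact p.Prime] {n : ℤ} {e : ℕ}
    {v : LocalizedModule (Submonoid.powers x) C.X} (hv : v ∈ C.gl x n e) :
    dvx x C.X v ∈ C.gl x n (e + 1) := by
  obtain ⟨m, hm, rfl⟩ := mem_gl.1 hv
  rw [dvx_divx]
  refine divx_mem_gl hm (Nat.le_succ e) ?_
  have h1 : p ^ e < p ^ (e + 1) := Nat.pow_lt_pow_right hp.out.one_lt (Nat.lt_succ_self e)
  exact h1

variable (C x)

/-- The two term complex `C → C_x`. -/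
@[reducible] noncomputable def cech [hp : Fact p.Prime] [CharP R p] : FGC R p where
  X := C.X × LocalizedModule (Submonoid.powers x) C.X
  d := LinearMap.prod (C.d.comp (LinearMap.fst R _ _))
    ((divx x C.X 0).comp (LinearMap.fst R _ _) - (locd _ C.d).comp (LinearMap.snd R _ _))
  dd := by
    rintro ⟨u, v⟩
    ext
    · simp [C.dd]
    · simp [C.dd, locd_locd _ C.dd, locd_divx]
  φ := AddMonoidHom.prodMap C.φ (locφ _ C.φ C.φs)
  φs := by
    rintro r ⟨u, v⟩
    ext
    · simp [C.φs]
    · simp [locφ_smul]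
  φd := by
    rintro ⟨u, v⟩
    ext
    · simp [C.φd]
    · simp [C.φd, locd_locφ, locφ_divx]
  feq := FEq.prod (ψ := locφ _ C.φ C.φs) C.feq (locφ_feq _ C.φs C.feq hp.out.pos)
    (fun a b => map_add (locφ _ C.φ C.φs) a b) (locφ_smul _ _ _)
  G n e := (C.G n e).prod (C.gl x (n - 1) e)
  Gmono n e := Submodule.prod_mono (C.Gmono n e) (gl_mono _ (Nat.le_succ e))
  Gd n e z hz := by
    obtain ⟨u, v⟩ := z
    obtain ⟨hu, hv⟩ := hz
    refine ⟨C.Gd n e u hu, ?_⟩
    change divx x C.X 0 u - locd _ C.d v ∈ _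
    refine Submodule.sub_mem _ ?_ ?_
    · rw [add_sub_cancel_right]
      exact divx_mem_gl hu le_rfl (Nat.zero_le _)
    · obtain ⟨m, hm, hm'⟩ := mem_gl.1 hv
      simp only at hm'
      rw [← hm', locd_divx]
      refine divx_mem_gl (e := e) ?_ le_rfl le_rfl
      have := C.Gd _ _ _ hm
      rwa [sub_add_cancel, ← add_sub_cancel_right n 1] at this
  Gspan n e := by
    refine le_antisymm ?_ ?_
    · rintro ⟨u, v⟩ ⟨hu, hv⟩
      simp only at hu hv
      have h1 : ((u, v) : C.X × LocalizedModule (Submonoid.powers x) C.X) = (u, 0) + (0, v) := by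
        simp
      rw [h1]
      refine Submodule.add_mem _ ?_ ?_
      · rw [SetLike.mem_coe, C.Gspan] at hu
        clear hv h1
        induction hu using Submodule.span_induction with
        | mem y hy =>
          obtain ⟨a, ha, rfl⟩ := hy
          refine Submodule.subset_span ⟨(a, 0), ⟨ha, Submodule.zero_mem _⟩, ?_⟩
          ext <;> simp
        | zero => exact Submodule.zero_mem _
        | add y z _ _ h3 h4 =>
          have := Submodule.add_mem _ h3 h4
          simpa using this
        | smul r y _ h3 =>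
          have := Submodule.smul_mem _ r h3
          simpa using this
      · obtain ⟨m, hm, rfl⟩ := mem_gl.1 hv
        rw [C.Gspan] at hm
        clear hv h1
        induction hm using Submodule.span_induction with
        | mem y hy =>
          obtain ⟨a, ha, rfl⟩ := hy
          refine Submodule.subset_span ⟨(0, divx x C.X (p ^ e) a),
            ⟨Submodule.zero_mem _, mem_gl.2 ⟨a, ha, rfl⟩⟩, ?_⟩
          ext
          · simp
          · simp [locφ_divx, pow_succ]
        | zero => rw [map_zero]; exact Submodule.zero_mem _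
        | add y z _ _ h3 h4 =>
          have := Submodule.add_mem _ h3 h4
          simpa using this
        | smul r y _ h3 =>
          have := Submodule.smul_mem _ r h3
          simpa using this
    · refine Submodule.span_le.2 ?_
      rintro _ ⟨⟨u, v⟩, ⟨hu, hv⟩, rfl⟩
      simp only at hu hv
      refine ⟨?_, ?_⟩
      · simp only [AddMonoidHom.coe_prodMap, Prod.map_apply]
        rw [SetLike.mem_coe, C.Gspan]
        exact Submodule.subset_span ⟨u, hu, rfl⟩
      · simp only [AddMonoidHom.coe_prodMap, Prod.map_apply]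
        obtain ⟨m, hm, rfl⟩ := mem_gl.1 hv
        rw [locφ_divx, ← pow_succ]
        refine mem_gl.2 ⟨C.φ m, ?_, rfl⟩
        rw [C.Gspan]
        exact Submodule.subset_span ⟨m, hm, rfl⟩
  Gfg n := by
    have h1 : (C.gl x (n - 1) 0).FG := Submodule.FG.map _ (C.Gfg _)
    exact Submodule.FG.prod (C.Gfg n) h1

end

end FGC

end Pool.Agent.H67.FK
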