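import Pool.Agent.H67.FK.Cech

/-!
# Koszul cohomology of `C → C_x`

Helper file (helper67) for `MP_95a866_al`.
-/

set_option autoImplicit false

open Finset

universe u

namespace Pool.Agent.H67.FK

section generic

variable {R : Type*} [CommRing R] {c : ℕ} {X Y : Type*} [AddCommGroup X] [Module R X]
  [AddCommGroup Y] [Module R Y]

lemma dop_prod (d : X →ₗ[R] X) (a : X →ₗ[R] Y) (b : Y →ₗ[R] Y) (u : Finset (Fin c) → X)
    (v : Finset (Fin c) → Y) :
    dop (LinearMap.prod (d.comp (LinearMap.fst R X Y))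
      (a.comp (LinearMap.fst R X Y) - b.comp (LinearMap.snd R X Y))) (fun S => (u S, v S)) =
    fun S => (dop d u S, (dop a u + dop (-b) v) S) := by
  refine funext fun S => Prod.ext rfl ?_
  change ((-1 : ℤ) ^ S.card) • (a (u S) - b (v S)) =
    ((-1 : ℤ) ^ S.card) • a (u S) + ((-1 : ℤ) ^ S.card) • (-b) (v S)
  rw [LinearMap.neg_apply, smul_neg, smul_sub, sub_eq_add_neg]

lemma dop_neg_dop {d : X →ₗ[R] X} {a : X →ₗ[R] Y} {b : Y →ₗ[R] Y} (h : ∀ u, b (a u) = a (d u))
    (u : Finset (Fin c) → X) : dop (-b) (dop a u) = - dop a (dop d u) := by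
  ext S
  simp only [dop_apply, Pi.neg_apply, LinearMap.neg_apply, map_zsmul, h, smul_neg]

end generic

set_option linter.unusedSectionVars false

namespace FGC

variable {R : Type u} [CommRing R] {p c : ℕ} [hp : Fact p.Prime] [CharP R p]
  (C : FGC R p) (x : R)

lemma cech_d (u : C.X) (v : LocalizedModule (Submonoid.powers x) C.X) :
    (C.cech x).d (u, v) = (C.d u, divx x C.X 0 u - locd _ C.d v) := rfl

lemma mem_cech_G {n : ℤ} {e : ℕ} {u : C.X} {v : LocalizedModule (Submonoid.powers x) C.X} :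
    ((u, v) : (C.cech x).X) ∈ (C.cech x).G n e ↔ u ∈ C.G n e ∧ v ∈ C.gl x (n - 1) e := Iff.rfl

/-- pairs of cochains -/
def pr (u : Finset (Fin c) → C.X) (v : Finset (Fin c) → LocalizedModule (Submonoid.powers x) C.X) :
    Finset (Fin c) → (C.cech x).X := fun S => (u S, v S)

lemma exists_pr (ω : Finset (Fin c) → (C.cech x).X) : ∃ u v, ω = C.pr x u v :=
  ⟨fun S => (ω S).1, fun S => (ω S).2, rfl⟩

variable {C x}

lemma pr_inj {u u' : Finset (Fin c) → C.X}
    {v v' : Finset (Fin c) → LocalizedModule (Submonoid.powers x) C.X}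
    (h : C.pr x u v = C.pr x u' v') : u = u' ∧ v = v' :=
  ⟨funext fun S => congrArg Prod.fst (congrFun h S), funext fun S => congrArg Prod.snd (congrFun h S)⟩

lemma kd_pr (f : Fin c → R) (J : Finset (Fin c)) (u : Finset (Fin c) → C.X)
    (v : Finset (Fin c) → LocalizedModule (Submonoid.powers x) C.X) :
    kd (C.cech x).d f J (C.pr x u v) =
      C.pr x (kd C.d f J u) (dop (divx x C.X 0) u + kd (-locd _ C.d) f J v) := by
  have hw : ∀ k, wed R k (C.pr x u v) = C.pr x (wed R k u) (wed R k v) := by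
    intro k
    refine funext fun S => ?_
    rw [wed_apply]
    change _ = (wed R k u S, wed R k v S)
    rw [wed_apply, wed_apply]
    split_ifs
    · rfl
    · rfl
  have hd : dop (C.cech x).d (C.pr x u v) =
      C.pr x (dop C.d u) (dop (divx x C.X 0) u + dop (-locd _ C.d) v) := by
    exact dop_prod C.d (divx x C.X 0) (locd _ C.d) u v
  have hs : ∀ (J : Finset (Fin c)), ∑ k ∈ J, f k • wed R k (C.pr x u v) =
      C.pr x (∑ k ∈ J, f k • wed R k u) (∑ k ∈ J, f k • wed R k v) := by
    classical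
    intro J
    induction J using Finset.induction_on with
    | empty => rfl
    | insert k J hk ih =>
      rw [sum_insert hk, sum_insert hk, sum_insert hk, ih, hw]
      rfl
  rw [kd_apply, kd_apply, kd_apply, hd, hs]
  refine funext fun S => Prod.ext rfl ?_
  change (dop (divx x C.X 0) u + dop (-locd _ C.d) v + ∑ k ∈ J, f k • wed R k v) S =
    (dop (divx x C.X 0) u + (dop (-locd _ C.d) v + ∑ k ∈ J, f k • wed R k v)) S
  rw [add_assoc]

lemma smul_pr (r : R) (u : Finset (Fin c) → C.X)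
    (v : Finset (Fin c) → LocalizedModule (Submonoid.powers x) C.X) :
    r • C.pr x u v = C.pr x (r • u) (r • v) := rfl

/-- the localized differential anticommutes with the localization map -/
lemma kd_dop (f : Fin c → R) (J : Finset (Fin c)) (u : Finset (Fin c) → C.X) :
    kd (-locd _ C.d) f J (dop (divx x C.X 0) u) = - dop (divx x C.X 0) (kd C.d f J u) := by
  rw [kd_apply, kd_apply, map_add, map_sum, neg_add, ← sum_neg_distrib]
  congr 1
  · exact dop_neg_dop (fun u => locd_divx x C.d 0 u) u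
  · refine sum_congr rfl fun k _ => ?_
    rw [map_smul, dop_wed, smul_neg, neg_neg]

/-- the localized Koszul complex is contractible -/
lemma exists_con {f : Fin c → R} {k : Fin c}
    {v : Finset (Fin c) → LocalizedModule (Submonoid.powers (f k)) C.X}
    (hv : kd (-locd _ C.d) f univ v = 0) :
    kd (-locd _ C.d) f univ (con R k fun S => dvx (f k) C.X (v S)) = v := by
  set w : Finset (Fin c) → LocalizedModule (Submonoid.powers (f k)) C.X :=
    fun S => dvx (f k) C.X (v S) with hw
  have h1 : f k • w = v := by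
    ext S
    exact smul_dvx (f k) _
  have h2 : kd (-locd _ C.d) f univ w = 0 := by
    have h3 : f k • kd (-locd _ C.d) f univ w = 0 := by
      rw [← map_smul, h1, hv]
    ext S
    exact smul_inj (f k) (congrFun h3 S)
  have h4 := kd_con_of_mem (-locd (Submonoid.powers (f k)) C.d) f (mem_univ k) w
  rw [h2, map_zero, add_zero, h1] at h4
  exact h4

theorem cech_van_of {f : Fin c → R} {k : Fin c} {T : Submonoid R} {n : ℤ}
    (h : C.Van f univ T n) : (C.cech (f k)).Van f univ T n := by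
  intro e ω hω h0
  obtain ⟨u, v, rfl⟩ := C.exists_pr (f k) ω
  rw [kd_pr] at h0
  have hu : u ∈ C.kc univ n e := fun S => ⟨(hω S).1.1, fun h' => absurd (subset_univ _) h'⟩
  have hv : ∀ S, v S ∈ C.gl (f k) (n - S.card - 1) e := fun S => (hω S).1.2
  have h01 : kd C.d f univ u = 0 := funext fun S => congrArg Prod.fst (congrFun h0 S)
  have h02 : dop (divx (f k) C.X 0) u + kd (-locd _ C.d) f univ v = 0 :=
    funext fun S => congrArg Prod.snd (congrFun h0 S)
  obtain ⟨t, ht, e1, y, hy, h1⟩ := h e u hu h01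
  set v' := t • v - dop (divx (f k) C.X 0) y with hv'
  have h3 : kd (-locd _ C.d) f univ v' = 0 := by
    rw [hv', map_sub, map_smul, kd_dop, h1, map_smul, sub_neg_eq_add, ← smul_add, add_comm,
      h02, smul_zero]
  have h4 := exists_con h3
  set z := con R k fun S => dvx (f k) C.X (v' S) with hz
  have hv'm : ∀ S, v' S ∈ C.gl (f k) (n - S.card - 1) (max e e1) := by
    intro S
    refine Submodule.sub_mem _ (Submodule.smul_mem _ _ (gl_mono _ (le_max_left _ _) (hv S)))
      (zsmul_mem ?_ _)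
    refine divx_mem_gl ?_ (le_max_right e e1) (Nat.zero_le _)
    have := (hy S).1
    rwa [show n - (S.card : ℤ) - 1 = n - 1 - S.card by ring]
  refine ⟨t, ht, max e e1 + 1, C.pr (f k) y z, fun S => ⟨⟨?_, ?_⟩,
    fun h' => absurd (subset_univ _) h'⟩, ?_⟩
  · exact C.Gmono' _ (by omega) (hy S).1
  · change z S ∈ _
    rw [hz, con_apply]
    split_ifs with hk
    · exact Submodule.zero_mem _
    · refine zsmul_mem ?_ _
      have := dvx_mem_gl (hv'm (insert k S))
      rw [card_insert_of_notMem hk] at this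
      rwa [show n - 1 - (S.card : ℤ) - 1 = n - ((S.card + 1 : ℕ) : ℤ) - 1 by push_cast; ring]
  · rw [kd_pr, h4, h1, hv', smul_pr]
    congr 1
    abel

theorem van_of_cech {f : Fin c → R} {k : Fin c} {T : Submonoid R} {n : ℤ}
    (h : (C.cech (f k)).Van f univ T n) : C.Van f univ T n := by
  intro e u hu h0
  set w : Finset (Fin c) → LocalizedModule (Submonoid.powers (f k)) C.X :=
    dop (divx (f k) C.X 0) u with hw
  have hw0 : kd (-locd _ C.d) f univ w = 0 := by
    rw [hw, kd_dop, h0, map_zero, neg_zero]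
  have h4 := exists_con hw0
  set z := con R k fun S => dvx (f k) C.X (w S) with hz
  have hwm : ∀ S, w S ∈ C.gl (f k) (n - S.card) e := by
    intro S
    exact zsmul_mem (divx_mem_gl (hu S).1 le_rfl (Nat.zero_le _)) _
  have hm : C.pr (f k) u (-z) ∈ (C.cech (f k)).kc univ n (e + 1) := by
    intro S
    refine ⟨⟨C.Gmono' _ (by omega) (hu S).1, ?_⟩, fun h' => absurd (subset_univ _) h'⟩
    change (-z) S ∈ _
    rw [Pi.neg_apply, hz, con_apply]
    refine Submodule.neg_mem _ ?_
    split_ifs with hk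
    · exact Submodule.zero_mem _
    · refine zsmul_mem ?_ _
      have := dvx_mem_gl (hwm (insert k S))
      rw [card_insert_of_notMem hk] at this
      rwa [show n - (S.card : ℤ) - 1 = n - ((S.card + 1 : ℕ) : ℤ) by push_cast; ring]
  obtain ⟨t, ht, e1, η, hη, h5⟩ := h (e + 1) _ hm (by
    rw [kd_pr, h0, map_neg, h4, hw, add_neg_cancel]
    rfl)
  obtain ⟨y, y', rfl⟩ := C.exists_pr (f k) η
  rw [kd_pr, smul_pr] at h5
  exact ⟨t, ht, e1, y, fun S => ⟨(hη S).1.1, fun h' => absurd (subset_univ _) h'⟩,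
    (pr_inj h5).1⟩

theorem cech_tors_self (n : ℤ) : (C.cech x).Tors (Submonoid.powers x) n := by
  rintro e ⟨u, v⟩ ⟨hu, hv⟩ h0
  simp only at hu hv
  rw [cech_d] at h0
  obtain ⟨m, hm, rfl⟩ := mem_gl.1 hv
  have h1 : divx x C.X 0 u - locd _ C.d (divx x C.X (p ^ e) m) = 0 := congrArg Prod.snd h0
  rw [locd_divx, ← divx_add x 0 (p ^ e) u, zero_add, ← map_sub] at h1
  obtain ⟨a, ha⟩ := divx_eq_zero x h1
  rw [smul_sub, sub_eq_zero, smul_smul, ← pow_add] at ha
  refine ⟨x ^ (a + p ^ e), ⟨_, rfl⟩, e, (x ^ a • m, 0),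
    ⟨Submodule.smul_mem _ _ hm, Submodule.zero_mem _⟩, ?_⟩
  rw [cech_d, map_smul, ← ha, map_zero, sub_zero]
  ext
  · rfl
  · change divx x C.X 0 (x ^ a • m) = x ^ (a + p ^ e) • divx x C.X (p ^ e) m
    have := pow_smul_divx x 0 (p ^ e) m
    rw [zero_add] at this
    rw [map_smul, ← this, smul_smul, pow_add]

theorem cech_tors {T : Submonoid R} (h : ∀ n, C.Tors T n) (n : ℤ) : (C.cech x).Tors T n := by
  rintro e ⟨u, v⟩ ⟨hu, hv⟩ h0
  simp only at hu hv
  rw [cech_d] at h0
  have h00 : C.d u = 0 := congrArg Prod.fst h0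
  have h01 : divx x C.X 0 u - locd _ C.d v = 0 := congrArg Prod.snd h0
  obtain ⟨t, ht, e1, w, hw, h1⟩ := h n e u hu h00
  set v' := t • v - divx x C.X 0 w with hv'
  have hv'm : v' ∈ C.gl x (n - 1) (max e e1) :=
    Submodule.sub_mem _ (Submodule.smul_mem _ _ (gl_mono _ (le_max_left _ _) hv))
      (divx_mem_gl hw (le_max_right _ _) (Nat.zero_le _))
  have hdv' : locd _ C.d v' = 0 := by
    rw [hv', map_sub, map_smul, locd_divx, h1, map_smul, ← smul_sub, ← neg_sub, h01, neg_zero,
      smul_zero]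
  set e2 := max e e1 with he2
  obtain ⟨m, hm, hm'⟩ := mem_gl.1 hv'm
  rw [← hm', locd_divx] at hdv'
  obtain ⟨a, ha⟩ := divx_eq_zero x hdv'
  obtain ⟨t', ht', e3, w', hw', h3⟩ := h (n - 1) e2 (x ^ a • m) (Submodule.smul_mem _ _ hm)
    (by rw [map_smul, ha])
  have hp2 : a + p ^ e2 ≤ p ^ (max e3 (a + p ^ e2)) := by
    refine (Nat.lt_pow_self hp.out.one_lt).le.trans ?_
    exact Nat.pow_le_pow_right hp.out.pos (le_max_right _ _)
  refine ⟨t' * t, T.mul_mem ht' ht, max e1 (max e3 (a + p ^ e2)),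
    (t' • w, -divx x C.X (a + p ^ e2) w'), ⟨Submodule.smul_mem _ _
      (C.Gmono' _ (le_max_left _ _) hw), Submodule.neg_mem _ (gl_mono _ (le_max_right _ _)
      (divx_mem_gl hw' (le_max_left _ _) hp2))⟩, ?_⟩
  rw [cech_d, map_smul, h1, map_neg, locd_divx, h3, sub_neg_eq_add]
  ext
  · change t' • t • u = (t' * t) • u
    rw [mul_smul]
  · change divx x C.X 0 (t' • w) + divx x C.X (a + p ^ e2) (t' • x ^ a • m) = (t' * t) • v
    rw [map_smul, map_smul, add_comm a, divx_add, hm', ← smul_add, hv', mul_smul]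
    congr 1
    abel

/-- Replace a complex by one with torsion cohomology. -/
theorem exists_torsion (C : FGC R p) (f : Fin c → R) : ∃ D : FGC R p,
    (∀ (T : Submonoid R) (n : ℤ), D.Van f univ T n ↔ C.Van f univ T n) ∧
      ∀ k n, D.Tors (Submonoid.powers (f k)) n := by
  classical
  have key : ∀ J : Finset (Fin c), ∃ D : FGC R p,
      (∀ (T : Submonoid R) (n : ℤ), D.Van f univ T n ↔ C.Van f univ T n) ∧
        ∀ k ∈ J, ∀ n, D.Tors (Submonoid.powers (f k)) n := by
    intro J
    induction J using Finset.induction_on with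
    | empty => exact ⟨C, fun _ _ => Iff.rfl, fun k hk => absurd hk (notMem_empty k)⟩
    | insert k J _ ih =>
      obtain ⟨D, h1, h2⟩ := ih
      refine ⟨D.cech (f k), fun T n => ?_, fun l hl n => ?_⟩
      · rw [← h1]
        exact ⟨van_of_cech, cech_van_of⟩
      · rcases mem_insert.1 hl with rfl | hl
        · exact cech_tors_self n
        · exact cech_tors (h2 l hl) n
  obtain ⟨D, h1, h2⟩ := key univ
  exact ⟨D, h1, fun k n => h2 k (mem_univ k) n⟩

/-- **Main theorem.** If the Koszul cohomology in degree `i` vanishes after localization at `T`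
then it vanishes after inverting one element of `T`. -/
theorem van_spread [IsNoetherianRing R] (C : FGC R p) (f : Fin c → R) (T : Submonoid R) (i : ℤ)
    (h : C.Van f univ T i) : ∃ s ∈ T, C.Van f univ (Submonoid.powers s) i := by
  obtain ⟨D, h1, h2⟩ := C.exists_torsion f
  have h3 : D.Van f univ T i := (h1 T i).2 h
  have htor : ∀ k, ∀ m, D.Van f ∅ (Submonoid.powers (f k)) m := fun k m =>
    (tors_iff f).1 (h2 k m)
  -- cohomology of `D` in degree `i`
  have h4 : D.Tors T i := (tors_iff f).2 (van_empty_of_van htor univ h3)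
  obtain ⟨s1, hs1, h5⟩ : ∃ s ∈ T, D.Tors (Submonoid.powers s) i := by
    have h6 : D.Van (c := 0) (fun k => k.elim0) univ T i := by
      have : (univ : Finset (Fin 0)) = ∅ := rfl
      rw [this]
      exact (tors_iff _).1 h4
    obtain ⟨s, hs, E', h7⟩ := h6.uniform 0
    refine ⟨s, hs, ?_⟩
    have h8 : D.ZZ (c := 0) (fun k => k.elim0) s 0 E' i := fun ω hω h0 => by
      obtain ⟨η, hη, h9⟩ := h7 ω hω h0
      exact ⟨1, η, hη, by rw [pow_one, h9]⟩
    rw [tors_iff (c := 0) (fun k => k.elim0)]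
    intro e ω hω h0
    have h9 := h8.frob_iter e
    have h10 : (fun k : Fin 0 => (k.elim0 : R) ^ p ^ e) = fun k => k.elim0 := by
      ext k; exact k.elim0
    rw [h10] at h9
    obtain ⟨N, η, hη, h11⟩ := h9 ω (by rw [zero_add]; exact hω) h0
    exact ⟨s ^ N, ⟨N, rfl⟩, _, η, hη, h11⟩
  -- the truncation
  have h6 : (D.trunc i).Van f univ T i := trunc_van D i h3
  have htor' : ∀ k, ∀ m, (D.trunc i).Van f ∅ (Submonoid.powers (f k)) m := fun k m =>
    (tors_iff f).1 (trunc_tors D i (h2 k m))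
  have hG : ∀ n e, i ≤ n → (D.trunc i).G n e = ⊥ := fun n e hn => trunc_G_of_ge D hn e
  obtain ⟨s2, hs2, h7⟩ := van_powers hG (van_of_le htor' hG univ h6)
  refine ⟨s1 * s2, T.mul_mem hs1 hs2, (h1 _ i).1 ?_⟩
  -- `powers s1` and `powers s2` versus `powers (s1 * s2)`
  have key : ∀ {c : ℕ} {D' : FGC R p} {g : Fin c → R} {J : Finset (Fin c)} {s t : R},
      D'.Van g J (Submonoid.powers s) i → D'.Van g J (Submonoid.powers (s * t)) i := by
    intro c D' g J s t h e ω hω h0
    obtain ⟨_, ⟨N, rfl⟩, e', η, hη, h9⟩ := h e ω hω h0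
    refine ⟨(s * t) ^ N, ⟨N, rfl⟩, e', t ^ N • η, Submodule.smul_mem _ _ hη, ?_⟩
    rw [map_smul, h9, smul_smul, mul_pow, mul_comm]
  refine van_of_trunc D i ?_ ?_
  · rw [mul_comm s1 s2]
    exact key h7
  · rw [tors_iff f] at h5 ⊢
    exact key h5

end FGC

end Pool.Agent.H67.FK
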