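import Pool.Agent.H67.FK.Flat

/-!
# Complexes of unit Frobenius modules with a root, and their Koszul cochains

Helper file (helper67) for `MP_95a866_al`.
-/

set_option autoImplicit false

open Finset

universe u

namespace Pool.Agent.H67.FK

/-- A complex of `F`-finite `F`-modules: a module `X` with a differential `d`, a Frobenius
semilinear endomorphism `φ` whose linearization is a flat base change, and submodules `G n e`
(the `e`-th Frobenius pull-back of the degree `n` part of a root). -/
structure FGC (R : Type u) [CommRing R] (p : ℕ) where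
  X : Type u
  [ag : AddCommGroup X]
  [mod : Module R X]
  d : X →ₗ[R] X
  dd : ∀ x, d (d x) = 0
  φ : X →+ X
  φs : ∀ (r : R) x, φ (r • x) = r ^ p • φ x
  φd : ∀ x, φ (d x) = d (φ x)
  feq : FEq R p φ
  G : ℤ → ℕ → Submodule R X
  Gmono : ∀ n e, G n e ≤ G n (e + 1)
  Gd : ∀ n e x, x ∈ G n e → d x ∈ G (n + 1) e
  Gspan : ∀ n e, G n (e + 1) = Submodule.span R (φ '' G n e)
  Gfg : ∀ n, (G n 0).FG

attribute [instance] FGC.ag FGC.mod

variable {R : Type u} [CommRing R] {p c : ℕ}

namespace FGC

variable (C : FGC R p)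

lemma Gmono' (n : ℤ) {e e' : ℕ} (h : e ≤ e') : C.G n e ≤ C.G n e' := by
  induction h with
  | refl => exact le_rfl
  | step _ ih => exact ih.trans (C.Gmono n _)

lemma Gfg' (n : ℤ) (e : ℕ) : (C.G n e).FG := by
  induction e with
  | zero => exact C.Gfg n
  | succ e ih =>
    obtain ⟨s, hs⟩ := ih
    classical
    rw [C.Gspan, ← hs]
    refine ⟨s.image C.φ, ?_⟩
    refine le_antisymm ?_ ?_
    · refine Submodule.span_mono ?_
      rw [coe_image]
      exact Set.image_mono Submodule.subset_span
    · refine Submodule.span_le.2 ?_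
      rintro _ ⟨x, hx, rfl⟩
      have : ∀ y ∈ Submodule.span R (s : Set C.X),
          C.φ y ∈ Submodule.span R ((s.image C.φ : Finset C.X) : Set C.X) := by
        intro y hy
        induction hy using Submodule.span_induction with
        | mem y hy => exact Submodule.subset_span (by rw [coe_image]; exact ⟨y, hy, rfl⟩)
        | zero => rw [map_zero]; exact Submodule.zero_mem _
        | add y z _ _ h1 h2 => rw [map_add]; exact Submodule.add_mem _ h1 h2
        | smul r y _ h1 => rw [C.φs]; exact Submodule.smul_mem _ _ h1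
      exact this x hx

/-- Koszul cochains of degree `n` with coefficients in the `e`-th root, supported on `J` -/
def kc (J : Finset (Fin c)) (n : ℤ) (e : ℕ) : Submodule R (Finset (Fin c) → C.X) where
  carrier := {ω | ∀ S, ω S ∈ C.G (n - S.card) e ∧ (¬ S ⊆ J → ω S = 0)}
  add_mem' {a b} ha hb S := ⟨Submodule.add_mem _ (ha S).1 (hb S).1, fun h => by
    rw [Pi.add_apply, (ha S).2 h, (hb S).2 h, add_zero]⟩
  zero_mem' S := ⟨Submodule.zero_mem _, fun _ => rfl⟩
  smul_mem' r a ha S := ⟨Submodule.smul_mem _ _ (ha S).1, fun h => by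
    rw [Pi.smul_apply, (ha S).2 h, smul_zero]⟩

variable {C}

lemma mem_kc {J : Finset (Fin c)} {n : ℤ} {e : ℕ} {ω : Finset (Fin c) → C.X} :
    ω ∈ C.kc J n e ↔ ∀ S, ω S ∈ C.G (n - S.card) e ∧ (¬ S ⊆ J → ω S = 0) := Iff.rfl

lemma kc_mono {J : Finset (Fin c)} {n : ℤ} {e e' : ℕ} (h : e ≤ e') :
    C.kc J n e ≤ C.kc J n e' := fun _ hω S => ⟨C.Gmono' _ h (hω S).1, (hω S).2⟩

lemma kc_insert {J : Finset (Fin c)} {n : ℤ} {e : ℕ} (k : Fin c) :
    C.kc J n e ≤ C.kc (insert k J) n e := fun _ hω S =>
  ⟨(hω S).1, fun h => (hω S).2 fun h' => h (h'.trans (subset_insert _ _))⟩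

lemma wed_mem {J : Finset (Fin c)} {n : ℤ} {e : ℕ} (k : Fin c) {ω : Finset (Fin c) → C.X}
    (h : ω ∈ C.kc J n e) : wed R k ω ∈ C.kc (insert k J) (n + 1) e := by
  intro S
  rw [wed_apply]
  by_cases hk : k ∈ S
  · rw [if_pos hk]
    have h1 := h (S.erase k)
    refine ⟨?_, fun hS => ?_⟩
    · refine zsmul_mem ?_ _
      have : (n - ((S.erase k).card : ℤ)) = n + 1 - S.card := by
        rw [← card_erase_add_one hk]; push_cast; ring
      rw [this] at h1
      exact h1.1
    · rw [h1.2 fun h' => hS (by rw [← insert_erase hk]; exact insert_subset_insert _ h'),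
        smul_zero]
  · rw [if_neg hk]
    exact ⟨Submodule.zero_mem _, fun _ => rfl⟩

lemma con_mem {J : Finset (Fin c)} {n : ℤ} {e : ℕ} (k : Fin c) {ω : Finset (Fin c) → C.X}
    (h : ω ∈ C.kc (insert k J) n e) : con R k ω ∈ C.kc J (n - 1) e := by
  intro S
  rw [con_apply]
  by_cases hk : k ∈ S
  · rw [if_pos hk]
    exact ⟨Submodule.zero_mem _, fun _ => rfl⟩
  · rw [if_neg hk]
    have h1 := h (insert k S)
    refine ⟨?_, fun hS => ?_⟩
    · refine zsmul_mem ?_ _
      have : (n - ((insert k S).card : ℤ)) = n - 1 - S.card := by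
        rw [card_insert_of_notMem hk]; push_cast; ring
      rw [this] at h1
      exact h1.1
    · rw [h1.2 fun h' => hS ?_, smul_zero]
      intro l hl
      rcases mem_insert.1 (h' (mem_insert_of_mem hl)) with h2 | h2
      · exact absurd (h2 ▸ hl) hk
      · exact h2

lemma dop_mem {J : Finset (Fin c)} {n : ℤ} {e : ℕ} {ω : Finset (Fin c) → C.X}
    (h : ω ∈ C.kc J n e) : dop C.d ω ∈ C.kc J (n + 1) e := by
  intro S
  rw [dop_apply]
  refine ⟨zsmul_mem ?_ _, fun hS => by rw [(h S).2 hS, map_zero, smul_zero]⟩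
  have := C.Gd _ _ _ (h S).1
  have e1 : n - (S.card : ℤ) + 1 = n + 1 - S.card := by ring
  rwa [e1] at this

lemma kd_mem (g : Fin c → R) {J : Finset (Fin c)} {n : ℤ} {e : ℕ} {ω : Finset (Fin c) → C.X}
    (h : ω ∈ C.kc J n e) : kd C.d g J ω ∈ C.kc J (n + 1) e := by
  rw [kd_apply]
  refine Submodule.add_mem _ (dop_mem h) (Submodule.sum_mem _ fun k hk => ?_)
  have := wed_mem k h
  rw [insert_eq_of_mem hk] at this
  exact Submodule.smul_mem _ _ this

lemma con_eq_zero {J : Finset (Fin c)} {n : ℤ} {e : ℕ} {k : Fin c} (hk : k ∉ J)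
    {ω : Finset (Fin c) → C.X} (h : ω ∈ C.kc J n e) : con R k ω = 0 := by
  ext S
  rw [con_apply]
  split_ifs
  · rfl
  · rw [(h (insert k S)).2 fun h' => hk (h' (mem_insert_self _ _)), smul_zero]
    rfl

variable (C)

/-- The Koszul cohomology in degree `n` vanishes after localization at `T`. -/
def Van (g : Fin c → R) (J : Finset (Fin c)) (T : Submonoid R) (n : ℤ) : Prop :=
  ∀ (e : ℕ), ∀ ω ∈ C.kc J n e, kd C.d g J ω = 0 →
    ∃ t ∈ T, ∃ e', ∃ η ∈ C.kc J (n - 1) e', kd C.d g J η = t • ω

variable {C}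

lemma Van.mono {g : Fin c → R} {J : Finset (Fin c)} {T T' : Submonoid R} {n : ℤ}
    (h : C.Van g J T n) (hT : T ≤ T') : C.Van g J T' n := fun e ω hω h0 => by
  obtain ⟨t, ht, r⟩ := h e ω hω h0
  exact ⟨t, hT ht, r⟩

/-- the long exact sequence -/
theorem Van.insert {g : Fin c → R} {J : Finset (Fin c)} {k : Fin c} (hk : k ∉ J)
    {T : Submonoid R} {n : ℤ} (h1 : C.Van g J T n) (h2 : C.Van g J T (n - 1)) :
    C.Van g (insert k J) T n := by
  intro e ω hω h0
  rw [kd_insert C.d g hk] at h0
  set ω0 := con R k (wed R k ω) with hω0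
  set ω1 := con R k ω with hω1
  have hdec : ω0 + wed R k ω1 = ω := con_wed_add k ω
  have m1 : ω1 ∈ C.kc J (n - 1) e := con_mem k hω
  have m0 : ω0 ∈ C.kc J n e := by
    have := con_mem (J := J) k (show wed R k ω ∈ C.kc (Insert.insert k J) (n + 1) e by
      have := wed_mem k hω
      rwa [Finset.insert_idem] at this)
    rwa [add_sub_cancel_right] at this
  have c0 : kd C.d g J ω0 = 0 := by
    have := congrArg (fun x => con R k (wed R k x)) h0
    simp only [map_add, map_smul, wed_wed, smul_zero, add_zero, map_zero] at this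
    rw [hω0, kd_con C.d g hk, kd_wed C.d g hk, map_neg, neg_neg, this]
  have c1 : kd C.d g J ω1 = g k • ω0 := by
    have := congrArg (fun x => con R k x) h0
    simp only [map_add, map_smul, map_zero] at this
    rw [hω1, kd_con C.d g hk, hω0]
    rw [add_eq_zero_iff_eq_neg] at this
    rw [this, neg_neg]
  obtain ⟨t, ht, e1, η0, hη0, e0⟩ := h1 e ω0 m0 c0
  set ω1' := t • ω1 - g k • η0 with hω1'
  have m1' : ω1' ∈ C.kc J (n - 1) (max e e1) :=
    Submodule.sub_mem _ (Submodule.smul_mem _ _ (kc_mono (le_max_left _ _) m1))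
      (Submodule.smul_mem _ _ (kc_mono (le_max_right _ _) hη0))
  have c1' : kd C.d g J ω1' = 0 := by
    rw [hω1', map_sub, map_smul, map_smul, c1, e0, smul_comm, sub_self]
  obtain ⟨t', ht', e2, η1, hη1, e3⟩ := h2 _ ω1' m1' c1'
  refine ⟨t' * t, T.mul_mem ht' ht, max e1 e2, t' • η0 - wed R k η1, Submodule.sub_mem _
    (Submodule.smul_mem _ _ (kc_insert k (kc_mono (le_max_left _ _) hη0))) ?_, ?_⟩
  · have := wed_mem k (kc_mono (le_max_right e1 e2) hη1)
    rwa [sub_add_cancel] at this
  · rw [kd_insert C.d g hk, map_sub, map_sub, map_smul, map_smul, e0, wed_wed, sub_zero,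
      kd_wed C.d g hk, e3, hω1', ← hdec]
    simp only [map_sub, map_smul, smul_add, smul_sub, mul_smul]
    rw [smul_comm (g k) t' (wed R k η0)]
    abel

/-- the descending step of the rigidity -/
theorem Van.of_insert {g : Fin c → R} {J : Finset (Fin c)} {k : Fin c} (hk : k ∉ J)
    {T : Submonoid R} {n : ℤ} (h1 : C.Van g (Insert.insert k J) T n)
    (h2 : C.Van g J (Submonoid.powers (g k)) n) : C.Van g J T n := by
  have key : ∀ (N : ℕ) (e : ℕ), ∀ ω ∈ C.kc J n e, kd C.d g J ω = 0 →
      (∃ e', ∃ η ∈ C.kc J (n - 1) e', kd C.d g J η = g k ^ N • ω) →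
      ∃ t ∈ T, ∃ e', ∃ η ∈ C.kc J (n - 1) e', kd C.d g J η = t • ω := by
    intro N
    induction N with
    | zero =>
      rintro e ω hω h0 ⟨e', η, hη, h⟩
      exact ⟨1, T.one_mem, e', η, hη, by rw [h, pow_zero]⟩
    | succ N ih =>
      rintro e ω hω h0 ⟨e', η, hη, h⟩
      set ω' := g k ^ N • ω with hω'
      have m' : ω' + wed R k η ∈ C.kc (Insert.insert k J) n (max e e') := by
        refine Submodule.add_mem _ (kc_insert k (Submodule.smul_mem _ _
          (kc_mono (le_max_left _ _) hω))) ?_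
        have := wed_mem k (kc_mono (le_max_right e e') hη)
        rwa [sub_add_cancel] at this
      have c' : kd C.d g (Insert.insert k J) (ω' + wed R k η) = 0 := by
        rw [kd_insert C.d g hk, map_add, map_add, wed_wed, add_zero, kd_wed C.d g hk, h, hω',
          map_smul, h0, smul_zero, zero_add, map_smul, map_smul, smul_smul, ← pow_succ']
        simp
      obtain ⟨t, ht, e1, ζ, hζ, e2⟩ := h1 _ _ m' c'
      have hω'c : con R k ω' = 0 := con_eq_zero hk (Submodule.smul_mem _ _ hω)
      have e3 : kd C.d g J (con R k (wed R k ζ)) = t • ω' := by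
        have := congrArg (fun x => con R k (wed R k x)) e2
        simp only [kd_insert C.d g hk, map_add, map_smul, wed_wed, smul_zero, add_zero] at this
        rw [kd_con C.d g hk, kd_wed C.d g hk, map_neg, neg_neg, this]
        conv_rhs => rw [← con_wed_add (R := R) k ω', hω'c, map_zero, add_zero]
      have m3 : con R k (wed R k ζ) ∈ C.kc J (n - 1) e1 := by
        have := con_mem (J := J) k (show wed R k ζ ∈ C.kc (Insert.insert k J) (n - 1 + 1) e1 by
          have := wed_mem k hζ
          rwa [Finset.insert_idem] at this)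
        rwa [add_sub_cancel_right] at this
      obtain ⟨t', ht', r⟩ := ih e (t • ω) (Submodule.smul_mem _ _ hω)
        (by rw [map_smul, h0, smul_zero]) ⟨e1, _, m3, by rw [e3, hω', smul_comm]⟩
      obtain ⟨e4, ξ, hξ, e5⟩ := r
      exact ⟨t' * t, T.mul_mem ht' ht, e4, ξ, hξ, by rw [e5, mul_smul]⟩
  intro e ω hω h0
  obtain ⟨_, ⟨N, rfl⟩, e', η, hη, h⟩ := h2 e ω hω h0
  exact key N e ω hω h0 ⟨e', η, hη, h⟩

/-- torsion cohomology gives torsion Koszul cohomology -/
theorem van_powers_of_empty {g : Fin c → R} {T : Submonoid R} (h : ∀ n, C.Van g ∅ T n)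
    (J : Finset (Fin c)) : ∀ n, C.Van g J T n := by
  induction J using Finset.induction_on with
  | empty => exact h
  | insert k J hk ih => exact fun n => Van.insert hk (ih n) (ih (n - 1))

/-- downward rigidity -/
theorem van_empty_of_van {g : Fin c → R} {T : Submonoid R} {n : ℤ}
    (htor : ∀ k, ∀ m, C.Van g ∅ (Submonoid.powers (g k)) m) (J : Finset (Fin c))
    (h : C.Van g J T n) : C.Van g ∅ T n := by
  induction J using Finset.induction_on with
  | empty => exact h
  | insert k J hk ih =>
    exact ih (Van.of_insert hk h (van_powers_of_empty (htor k) J n))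

/-- upward rigidity -/
theorem van_of_le {g : Fin c → R} {T : Submonoid R} {i : ℤ}
    (htor : ∀ k, ∀ m, C.Van g ∅ (Submonoid.powers (g k)) m) (hG : ∀ n e, i ≤ n → C.G n e = ⊥)
    (J : Finset (Fin c)) (h : C.Van g J T i) : ∀ n, i ≤ n → C.Van g J T n := by
  induction J using Finset.induction_on with
  | empty =>
    intro n hn e ω hω _
    have : ω = 0 := by
      ext S
      by_cases hS : S ⊆ ∅
      · have h1 := (hω S).1
        rw [subset_empty.1 hS, card_empty, Nat.cast_zero, sub_zero, hG n e hn,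
          Submodule.mem_bot] at h1
        rw [subset_empty.1 hS, h1]
        rfl
      · exact (hω S).2 hS
    exact ⟨1, T.one_mem, 0, 0, Submodule.zero_mem _, by rw [this, map_zero, smul_zero]⟩
  | insert k J hk ih =>
    intro n hn
    have h1 := ih (Van.of_insert hk h (van_powers_of_empty (htor k) J i))
    rcases hn.eq_or_lt with h2 | h2
    · rw [← h2]; exact h
    · exact Van.insert hk (h1 n hn) (h1 (n - 1) (by omega))

end FGC

end Pool.Agent.H67.FK
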