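import Pool.Agent.H67.FK.Ops

/-!
# Frobenius-semilinear maps which are flat base changes, in equational form

Helper file (helper67) for `MP_95a866_al`.
-/

set_option autoImplicit false

open Finset

namespace Pool.Agent.H67.FK

variable {R : Type*} [CommRing R] {p : ℕ}

/-- If `∑ r i • φ (x i) = 0` then the `r i` are combinations of `p`-th powers of coefficients of
relations between the `x i`.  For `φ` the canonical map to the base change along the Frobenius map
this is the flatness of the Frobenius map. -/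
def FEq (R : Type*) [CommRing R] (p : ℕ) {X Y : Type*} [AddCommGroup X] [Module R X]
    [AddCommGroup Y] [Module R Y] (φ : X → Y) : Prop :=
  ∀ (n : ℕ) (r : Fin n → R) (x : Fin n → X), ∑ i, r i • φ (x i) = 0 →
    ∃ (m : ℕ) (b : Fin m → R) (c : Fin m → Fin n → R),
      (∀ i, r i = ∑ k, b k * c k i ^ p) ∧ ∀ k, ∑ i, c k i • x i = 0

section

variable {X Y Z : Type*} [AddCommGroup X] [Module R X] [AddCommGroup Y] [Module R Y]
  [AddCommGroup Z] [Module R Z]

/-- the kernel of a base change -/
theorem mem_span_ker (φA : X →+ Z) (hA : ∀ (r : R) x, φA (r • x) = r ^ p • φA x)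
    {φB : Y →+ Y} (hB : FEq R p φB) (D : X →ₗ[R] Y) (D' : Z →ₗ[R] Y)
    (hD : ∀ x, D' (φA x) = φB (D x)) (N : Submodule R X) {z : Z}
    (hz : z ∈ Submodule.span R (φA '' N)) (hz0 : D' z = 0) :
    z ∈ Submodule.span R (φA '' {x | x ∈ N ∧ D x = 0}) := by
  obtain ⟨n, r, g, rfl⟩ := Submodule.mem_span_set'.1 hz
  choose x hx using fun i => (g i).2
  have h1 : ∑ i, r i • φB (D (x i)) = 0 := by
    rw [← hz0, map_sum]
    refine sum_congr rfl fun i _ => ?_
    rw [map_smul, ← hD, (hx i).2]
  obtain ⟨m, b, c, hb, hc⟩ := hB n r (fun i => D (x i)) h1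
  have h2 : ∑ i, r i • (g i : Z) = ∑ k, b k • φA (∑ i, c k i • x i) := by
    have : ∀ k, φA (∑ i, c k i • x i) = ∑ i, c k i ^ p • (g i : Z) := by
      intro k
      rw [map_sum]
      refine sum_congr rfl fun i _ => ?_
      rw [hA, (hx i).2]
    simp only [this, smul_sum, smul_smul]
    rw [sum_comm]
    refine sum_congr rfl fun i _ => ?_
    rw [hb i, sum_smul]
  rw [h2]
  refine Submodule.sum_mem _ fun k _ => Submodule.smul_mem _ _ (Submodule.subset_span ?_)
  refine ⟨_, ⟨Submodule.sum_mem _ fun i _ => Submodule.smul_mem _ _ (hx i).1, ?_⟩, rfl⟩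
  rw [map_sum]
  simpa only [map_smul] using hc k

/-- the product of two flat base changes -/
theorem FEq.prod [hp : Fact p.Prime] [CharP R p] {φ : X → X} {ψ : Y → Y} (h : FEq R p φ)
    (h' : FEq R p ψ) (ha : ∀ y y', ψ (y + y') = ψ y + ψ y')
    (hψ : ∀ (r : R) y, ψ (r • y) = r ^ p • ψ y) :
    FEq R p (fun z : X × Y => (φ z.1, ψ z.2)) := by
  intro n r z hz
  have h1 : ∑ i, r i • φ (z i).1 = 0 := by
    have := congrArg Prod.fst hz
    simpa [Prod.fst_sum] using this
  have h2 : ∑ i, r i • ψ (z i).2 = 0 := by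
    have := congrArg Prod.snd hz
    simpa [Prod.snd_sum] using this
  obtain ⟨m, b, c, hb, hc⟩ := h n r _ h1
  set Ψ : Y →+ Y := AddMonoidHom.mk' ψ ha with hΨ
  have hΨ' : ∀ y, ψ y = Ψ y := fun _ => rfl
  have h3 : ∑ k, b k • ψ (∑ i, c k i • (z i).2) = 0 := by
    rw [← h2]
    have : ∀ k, ψ (∑ i, c k i • (z i).2) = ∑ i, c k i ^ p • ψ (z i).2 := by
      intro k
      rw [hΨ', map_sum]
      exact sum_congr rfl fun i _ => hψ _ _
    simp only [this, smul_sum, smul_smul]
    rw [sum_comm]
    refine sum_congr rfl fun i _ => ?_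
    rw [hb i, sum_smul]
  obtain ⟨m', b', c', hb', hc'⟩ := h' m b _ h3
  refine ⟨m', b', fun l i => ∑ k, c' l k * c k i, fun i => ?_, fun l => ?_⟩
  · rw [hb i]
    simp only [sum_pow_char p, mul_pow, mul_sum]
    rw [sum_comm]
    refine sum_congr rfl fun k _ => ?_
    rw [hb' k, sum_mul]
    exact sum_congr rfl fun l _ => mul_assoc _ _ _
  · have e1 : ∑ i, (∑ k, c' l k * c k i) • (z i).1 = 0 := by
      simp only [sum_smul]
      rw [sum_comm]
      refine sum_eq_zero fun k _ => ?_
      simp only [mul_smul]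
      rw [← smul_sum, hc k, smul_zero]
    have e2 : ∑ i, (∑ k, c' l k * c k i) • (z i).2 = 0 := by
      rw [← hc' l]
      simp only [sum_smul, smul_sum, smul_smul]
      rw [sum_comm]
    ext
    · simpa [Prod.fst_sum] using e1
    · simpa [Prod.snd_sum] using e2

/-- finite powers of a flat base change, auxiliary statement -/
theorem FEq.pi_aux [hp : Fact p.Prime] [CharP R p] {σ : Type*} {φ : X →+ X} (h : FEq R p φ)
    (hφ : ∀ (r : R) y, φ (r • y) = r ^ p • φ y) (J : Finset σ) :
    ∀ (n : ℕ) (r : Fin n → R) (x : Fin n → σ → X), (∀ S ∈ J, ∑ i, r i • φ (x i S) = 0) →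
      ∃ (m : ℕ) (b : Fin m → R) (c : Fin m → Fin n → R),
        (∀ i, r i = ∑ k, b k * c k i ^ p) ∧ ∀ S ∈ J, ∀ k, ∑ i, c k i • x i S = 0 := by
  classical
  induction J using Finset.induction_on with
  | empty =>
    intro n r x _
    refine ⟨n, r, fun k i => if k = i then 1 else 0, fun i => ?_, fun S hS => absurd hS (by simp)⟩
    rw [Finset.sum_eq_single i]
    · simp
    · intro j _ hj
      simp [hj, hp.out.ne_zero]
    · simp
  | insert S J hS ih =>
    intro n r x hx
    obtain ⟨m, b, c, hb, hc⟩ := ih n r x fun T hT => hx T (mem_insert_of_mem hT)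
    have h2 := hx S (mem_insert_self _ _)
    have h3 : ∑ k, b k • φ (∑ i, c k i • x i S) = 0 := by
      rw [← h2]
      have : ∀ k, φ (∑ i, c k i • x i S) = ∑ i, c k i ^ p • φ (x i S) := by
        intro k
        rw [map_sum]
        exact sum_congr rfl fun i _ => hφ _ _
      simp only [this, smul_sum, smul_smul]
      rw [sum_comm]
      refine sum_congr rfl fun i _ => ?_
      rw [hb i, sum_smul]
    obtain ⟨m', b', c', hb', hc'⟩ := h m b _ h3
    refine ⟨m', b', fun l i => ∑ k, c' l k * c k i, fun i => ?_, fun T hT l => ?_⟩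
    · rw [hb i]
      simp only [sum_pow_char p, mul_pow, mul_sum]
      rw [sum_comm]
      refine sum_congr rfl fun k _ => ?_
      rw [hb' k, sum_mul]
      exact sum_congr rfl fun l _ => mul_assoc _ _ _
    · rcases mem_insert.1 hT with hT | hT
      · subst hT
        rw [← hc' l]
        simp only [sum_smul, smul_sum, smul_smul]
        rw [sum_comm]
      · simp only [sum_smul]
        rw [sum_comm]
        refine sum_eq_zero fun k _ => ?_
        simp only [mul_smul]
        rw [← smul_sum, hc T hT k, smul_zero]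

/-- finite powers of a flat base change -/
theorem FEq.pi [hp : Fact p.Prime] [CharP R p] {σ : Type*} [Fintype σ] {φ : X →+ X}
    (h : FEq R p φ) (hφ : ∀ (r : R) y, φ (r • y) = r ^ p • φ y) :
    FEq R p (fun ω : σ → X => fun S => φ (ω S)) := by
  intro n r x hx
  obtain ⟨m, b, c, hb, hc⟩ := h.pi_aux hφ (univ : Finset σ) n r x fun S _ => by
    have := congrFun hx S
    simpa using this
  refine ⟨m, b, c, hb, fun k => ?_⟩
  ext S
  simpa using hc S (mem_univ _) k

end

end Pool.Agent.H67.FK
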