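import Pool.Agent.H67.FK.Cpx

/-!
# Uniform vanishing of Koszul cohomology of a bounded complex of `F`-finite `F`-modules

Helper file (helper67) for `MP_95a866_al`.
-/

set_option autoImplicit false

open Finset

universe u

namespace Pool.Agent.H67.FK

namespace FGC

variable {R : Type u} [CommRing R] {p c : ℕ} (C : FGC R p)

/-- The map from the Koszul cohomology with coefficients in the `e`-th root to the one with
coefficients in the `e'`-th root is zero up to powers of `s`. -/
def ZZ (g : Fin c → R) (s : R) (e e' : ℕ) (n : ℤ) : Prop :=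
  ∀ ω ∈ C.kc univ n e, kd C.d g univ ω = 0 →
    ∃ N : ℕ, ∃ η ∈ C.kc univ (n - 1) e', kd C.d g univ η = s ^ N • ω

variable {C}

lemma ZZ.mono {g : Fin c → R} {s : R} {e e' e0 e1 : ℕ} {n : ℤ} (h : C.ZZ g s e e' n)
    (h0 : e0 ≤ e) (h1 : e' ≤ e1) : C.ZZ g s e0 e1 n := fun ω hω hc => by
  obtain ⟨N, η, hη, h2⟩ := h ω (kc_mono h0 hω) hc
  exact ⟨N, η, kc_mono h1 hη, h2⟩

lemma ZZ.mul_right {g : Fin c → R} {s : R} {e e' : ℕ} {n : ℤ} (h : C.ZZ g s e e' n) (t : R) :
    C.ZZ g (s * t) e e' n := fun ω hω hc => by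
  obtain ⟨N, η, hη, h2⟩ := h ω hω hc
  exact ⟨N, t ^ N • η, Submodule.smul_mem _ _ hη, by
    rw [map_smul, h2, smul_smul, mul_pow, mul_comm]⟩

/-- the Frobenius action on cochains -/
def fk (C : FGC R p) (c : ℕ) : (Finset (Fin c) → C.X) →+ (Finset (Fin c) → C.X) where
  toFun ω S := C.φ (ω S)
  map_zero' := by ext S; simp
  map_add' a b := by ext S; simp

lemma fk_apply (ω : Finset (Fin c) → C.X) (S : Finset (Fin c)) : C.fk c ω S = C.φ (ω S) := rfl

lemma fk_smul (r : R) (ω : Finset (Fin c) → C.X) : C.fk c (r • ω) = r ^ p • C.fk c ω := by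
  ext S
  exact C.φs r _

lemma fk_wed (k : Fin c) (ω : Finset (Fin c) → C.X) :
    C.fk c (wed R k ω) = wed R k (C.fk c ω) := by
  ext S
  rw [fk_apply, wed_apply, wed_apply]
  split_ifs
  · rw [map_zsmul]; rfl
  · rw [map_zero]

lemma fk_dop (ω : Finset (Fin c) → C.X) : C.fk c (dop C.d ω) = dop C.d (C.fk c ω) := by
  ext S
  rw [fk_apply, dop_apply, dop_apply, map_zsmul, C.φd]
  rfl

lemma fk_kd (g : Fin c → R) (J : Finset (Fin c)) (ω : Finset (Fin c) → C.X) :
    C.fk c (kd C.d g J ω) = kd C.d (fun k => g k ^ p) J (C.fk c ω) := by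
  rw [kd_apply, kd_apply, map_add, fk_dop, map_sum]
  congr 1
  refine sum_congr rfl fun k _ => ?_
  rw [fk_smul, fk_wed]

lemma fk_mem {J : Finset (Fin c)} {n : ℤ} {e : ℕ} {ω : Finset (Fin c) → C.X}
    (h : ω ∈ C.kc J n e) : C.fk c ω ∈ C.kc J n (e + 1) := fun S =>
  ⟨by rw [C.Gspan]; exact Submodule.subset_span ⟨_, (h S).1, rfl⟩,
    fun hS => by rw [fk_apply, (h S).2 hS, map_zero]⟩

lemma single_mem {n : ℤ} {e : ℕ} {S : Finset (Fin c)} {x : C.X} (h : x ∈ C.G (n - S.card) e) :
    Pi.single S x ∈ C.kc univ n e := by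
  intro T
  refine ⟨?_, fun h' => absurd (subset_univ _) h'⟩
  by_cases hT : T = S
  · subst hT
    rwa [Pi.single_eq_same]
  · rw [Pi.single_eq_of_ne hT]
    exact Submodule.zero_mem _

lemma kc_succ_le (n : ℤ) (e : ℕ) :
    C.kc (univ : Finset (Fin c)) n (e + 1) ≤
      Submodule.span R (C.fk c '' (C.kc (univ : Finset (Fin c)) n e)) := by
  intro ω hω
  have h1 : ω = ∑ S, Pi.single S (ω S) := by
    rw [Finset.univ_sum_single]
  rw [h1]
  refine Submodule.sum_mem _ fun S _ => ?_
  have h2 := (hω S).1
  rw [C.Gspan] at h2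
  have key : ∀ y ∈ Submodule.span R (C.φ '' (C.G (n - S.card) e)),
      (Pi.single S y : Finset (Fin c) → C.X) ∈
        Submodule.span R (C.fk c '' (C.kc (univ : Finset (Fin c)) n e)) := by
    intro y hy
    induction hy using Submodule.span_induction with
    | mem y hy =>
      obtain ⟨x, hx, rfl⟩ := hy
      refine Submodule.subset_span ⟨Pi.single S x, single_mem hx, ?_⟩
      ext T
      rw [fk_apply]
      by_cases hT : T = S
      · subst hT
        rw [Pi.single_eq_same, Pi.single_eq_same]
      · rw [Pi.single_eq_of_ne hT, Pi.single_eq_of_ne hT, map_zero]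
    | zero => rw [Pi.single_zero]; exact Submodule.zero_mem _
    | add y z _ _ h3 h4 => rw [Pi.single_add]; exact Submodule.add_mem _ h3 h4
    | smul r y _ h3 =>
      have : (Pi.single S (r • y) : Finset (Fin c) → C.X) = r • Pi.single S y := by
        ext T
        by_cases hT : T = S
        · subst hT
          rw [Pi.single_eq_same, Pi.smul_apply, Pi.single_eq_same]
        · rw [Pi.single_eq_of_ne hT, Pi.smul_apply, Pi.single_eq_of_ne hT, smul_zero]
      rw [this]
      exact Submodule.smul_mem _ _ h3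
  exact key _ h2

/-- Frobenius pull-back of a vanishing statement -/
theorem ZZ.frob [hp : Fact p.Prime] [CharP R p] {g : Fin c → R} {s : R} {e e' : ℕ} {n : ℤ}
    (h : C.ZZ g s e e' n) : C.ZZ (fun k => g k ^ p) s (e + 1) (e' + 1) n := by
  intro ω hω h0
  have h1 := mem_span_ker (C.fk c) fk_smul (FEq.pi C.feq C.φs)
    (φB := C.fk c) (kd C.d g univ) (kd C.d (fun k => g k ^ p) univ)
    (fun x => (fk_kd g univ x).symm) (C.kc univ n e) (kc_succ_le n e hω) h0
  clear hω h0
  induction h1 using Submodule.span_induction with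
  | mem y hy =>
    obtain ⟨x, ⟨hx, hx0⟩, rfl⟩ := hy
    obtain ⟨N, η, hη, h2⟩ := h x hx hx0
    refine ⟨p * N, C.fk c η, fk_mem hη, ?_⟩
    rw [← fk_kd, h2, fk_smul, ← pow_mul, mul_comm]
  | zero => exact ⟨0, 0, Submodule.zero_mem _, by simp⟩
  | add y z _ _ h3 h4 =>
    obtain ⟨N, η, hη, h2⟩ := h3
    obtain ⟨N', η', hη', h2'⟩ := h4
    refine ⟨N + N', s ^ N' • η + s ^ N • η', Submodule.add_mem _ (Submodule.smul_mem _ _ hη)
      (Submodule.smul_mem _ _ hη'), ?_⟩
    rw [map_add, map_smul, map_smul, h2, h2', smul_smul, smul_smul, ← pow_add, ← pow_add,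
      smul_add, add_comm N' N]
  | smul r y _ h3 =>
    obtain ⟨N, η, hη, h2⟩ := h3
    exact ⟨N, r • η, Submodule.smul_mem _ _ hη, by rw [map_smul, h2, smul_comm]⟩

theorem ZZ.frob_iter [hp : Fact p.Prime] [CharP R p] {g : Fin c → R} {s : R} {e e' : ℕ} {n : ℤ}
    (h : C.ZZ g s e e' n) (m : ℕ) : C.ZZ (fun k => g k ^ p ^ m) s (e + m) (e' + m) n := by
  induction m with
  | zero => simpa using h
  | succ m ih =>
    have := ih.frob
    simp only [← pow_mul, ← pow_succ] at this
    exact this

/-- the differential only depends on the values on `J` -/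
lemma kd_congr {X : Type*} [AddCommGroup X] [Module R X] (d : X →ₗ[R] X) {g g' : Fin c → R}
    {J : Finset (Fin c)} (h : ∀ k ∈ J, g k = g' k) : kd d g J = kd d g' J := by
  unfold kd
  congr 1
  exact sum_congr rfl fun k hk => by rw [h k hk]

lemma kd_update {X : Type*} [AddCommGroup X] [Module R X] (d : X →ₗ[R] X) (g : Fin c → R)
    (k : Fin c) (u : R) (ω : Finset (Fin c) → X) :
    kd d (Function.update g k u) univ ω = kd d g (univ.erase k) ω + u • wed R k ω := by
  have h1 : (univ : Finset (Fin c)) = insert k (univ.erase k) := by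
    rw [insert_erase (mem_univ k)]
  conv_lhs => rw [h1]
  rw [kd_insert d _ (notMem_erase k univ), Function.update_self]
  congr 1
  rw [kd_congr d (g := Function.update g k u) (g' := g)]
  intro l hl
  rw [Function.update_of_ne (ne_of_mem_erase hl)]

section core

variable {Y : Type*} [AddCommGroup Y] [Module R Y] (A B I : Y →ₗ[R] Y)

theorem core_proj (hBB : ∀ x, B (B x) = 0) (hIB : ∀ x, I (B x) + B (I x) = x)
    (hAB : ∀ x, A (B x) = - B (A x)) (hAI : ∀ x, A (I x) = - I (A x)) (u v : R) (x : Y) :
    A (u • I (B x) + B (I x)) + v • B (u • I (B x) + B (I x)) =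
      u • I (B (A x + (u * v) • B x)) + B (I (A x + (u * v) • B x)) := by
  have h8 : B (I (B x)) = B x := by
    have := hIB (B x)
    rwa [hBB, map_zero, zero_add] at this
  simp only [map_add, map_smul, hAB, hAI, map_neg, neg_neg, hBB, smul_zero, add_zero,
    smul_smul, h8, mul_comm u v]
  abel

theorem core_lift (hBB : ∀ x, B (B x) = 0) (hII : ∀ x, I (I x) = 0)
    (hIB : ∀ x, I (B x) + B (I x) = x)
    (hAB : ∀ x, A (B x) = - B (A x)) (hAI : ∀ x, A (I x) = - I (A x)) (u v a : R) (ω w z' : Y)
    (h0 : A ω + v • B ω = 0) (e3 : A w + u • B w = a • B ω)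
    (hz' : z' = I (B w) + a • B (I ω) + v • B (I w)) :
    A z' + (u * v) • B z' = 0 ∧
      u • I (B z') + B (I z') = a • ω + (A (I w) + v • B (I w)) := by
  have h8 : ∀ x, B (I (B x)) = B x := by
    intro x
    have := hIB (B x)
    rwa [hBB, map_zero, zero_add] at this
  have h9 : ∀ x, I (B (I x)) = I x := by
    intro x
    have := hIB (I x)
    rwa [hII, map_zero, add_zero] at this
  have e4 : I (B (A w)) = 0 := by
    have := congrArg (fun x => I (B x)) e3
    simpa only [map_add, map_smul, hBB, smul_zero, add_zero, map_zero] using this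
  have e5 : I (A w) = a • I (B ω) - u • I (B w) := by
    have := congrArg I e3
    simp only [map_add, map_smul] at this
    rw [← this]
    abel
  have e6 : A ω = - (v • B ω) := by
    rw [← add_eq_zero_iff_eq_neg]
    exact h0
  have e9 : B (I (A w)) = a • B ω - u • B w := by
    rw [e5]
    simp only [map_sub, map_smul, h8]
  constructor
  · rw [hz']
    simp only [map_add, map_smul, hAB, hAI, map_neg, neg_neg, hBB, smul_zero, add_zero, e4,
      zero_add, e6, h8, e9, smul_sub, smul_smul, smul_neg, mul_comm u v, mul_comm a v]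
    abel
  · rw [hz', hAI, e5]
    simp only [map_add, map_smul, hII, hBB, smul_zero, add_zero, zero_add, h8, h9]
    have e14 : a • ω = a • I (B ω) + a • B (I ω) := by
      rw [← smul_add, hIB]
    rw [e14]
    abel

end core

/-- lifting along `K(x^{a+b}) → K(x^b)` in one coordinate -/
theorem ZZ.step {g : Fin c → R} {s : R} {k : Fin c} (u : R) {e e1 e2 : ℕ} {n : ℤ}
    (h1 : C.ZZ (Function.update g k u) s e e1 (n + 1))
    (h2 : C.ZZ (Function.update g k (u * g k)) s e1 e2 n) (he : e ≤ e1) (he' : e1 ≤ e2) :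
    C.ZZ g s e e2 n := by
  intro ω hω h0
  have hk : k ∉ (univ : Finset (Fin c)).erase k := notMem_erase k univ
  have hg : ∀ x : Finset (Fin c) → C.X, kd C.d g univ x =
      kd C.d g (univ.erase k) x + g k • wed R k x := by
    intro x
    have := kd_update C.d g k (g k) x
    rwa [Function.update_eq_self] at this
  rw [hg] at h0
  have hwmem : ∀ {m : ℤ} {e : ℕ} {x : Finset (Fin c) → C.X}, x ∈ C.kc univ m e →
      wed R k x ∈ C.kc univ (m + 1) e := by
    intro m e x hx
    have := wed_mem k hx
    rwa [insert_eq_of_mem (mem_univ k)] at this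
  have hcmem : ∀ {m : ℤ} {e : ℕ} {x : Finset (Fin c) → C.X}, x ∈ C.kc univ m e →
      con R k x ∈ C.kc univ (m - 1) e := by
    intro m e x hx
    refine con_mem k ?_
    rwa [insert_eq_of_mem (mem_univ k)]
  have hA : kd C.d g (univ.erase k) (wed R k ω) = 0 := by
    rw [kd_wed C.d g hk, neg_eq_zero]
    have := congrArg (wed R k) h0
    simpa only [map_add, map_smul, wed_wed, smul_zero, add_zero, map_zero] using this
  obtain ⟨N, w, hw, e3⟩ := h1 (wed R k ω) (hwmem hω)
    (by rw [kd_update, hA, wed_wed, smul_zero, add_zero])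
  rw [add_sub_cancel_right] at hw
  rw [kd_update] at e3
  have hz'mem : con R k (wed R k w) + s ^ N • wed R k (con R k ω) + g k • wed R k (con R k w)
      ∈ C.kc univ n e1 := by
    refine Submodule.add_mem _ (Submodule.add_mem _ ?_ ?_) ?_
    · have := hcmem (hwmem hw)
      rwa [add_sub_cancel_right] at this
    · have := hwmem (hcmem (kc_mono he hω))
      rw [sub_add_cancel] at this
      exact Submodule.smul_mem _ _ this
    · have := hwmem (hcmem hw)
      rw [sub_add_cancel] at this
      exact Submodule.smul_mem _ _ this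
  obtain ⟨hcz, hpz⟩ := core_lift (kd C.d g (univ.erase k)) (wed R k) (con R k)
    (wed_wed k) (con_con k) (con_wed_add k) (fun x => kd_wed C.d g hk x)
    (fun x => kd_con C.d g hk x) u (g k) (s ^ N) ω w _ h0 e3 rfl
  obtain ⟨N', y, hy, e10⟩ := h2 _ hz'mem (by rw [kd_update]; exact hcz)
  rw [kd_update] at e10
  refine ⟨N' + N, u • con R k (wed R k y) + wed R k (con R k y) - s ^ N' • con R k w,
    Submodule.sub_mem _ (Submodule.add_mem _ (Submodule.smul_mem _ _ ?_) ?_)
      (Submodule.smul_mem _ _ (kc_mono he' (hcmem hw))), ?_⟩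
  · have := hcmem (hwmem hy)
    rwa [add_sub_cancel_right] at this
  · have := hwmem (hcmem hy)
    rwa [sub_add_cancel] at this
  · rw [map_sub, hg, core_proj (kd C.d g (univ.erase k)) (wed R k) (con R k)
      (wed_wed k) (con_wed_add k) (fun x => kd_wed C.d g hk x)
      (fun x => kd_con C.d g hk x) u (g k) y, e10, map_smul, hg]
    simp only [map_smul]
    rw [smul_comm u (s ^ N'), ← smul_add, hpz, smul_add, smul_add, smul_comm (g k) (s ^ N'),
      pow_add, mul_smul]
    abel

section noeth

/-- finitely many denominators suffice -/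
theorem Van.uniform [IsNoetherianRing R] {f : Fin c → R} {T : Submonoid R} {n : ℤ}
    (h : C.Van f univ T n) (E : ℕ) :
    ∃ s ∈ T, ∃ E', ∀ ω ∈ C.kc univ n E, kd C.d f univ ω = 0 →
      ∃ η ∈ C.kc univ (n - 1) E', kd C.d f univ η = s • ω := by
  classical
  have h1 : (C.kc (univ : Finset (Fin c)) n E).FG := by
    have : C.kc (univ : Finset (Fin c)) n E =
        Submodule.pi Set.univ (fun S : Finset (Fin c) => C.G (n - S.card) E) := by
      ext ω
      simp only [mem_kc, Submodule.mem_pi, Set.mem_univ, forall_const]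
      exact forall_congr' fun S => ⟨fun h => h.1, fun h => ⟨h, fun h' => absurd (subset_univ _) h'⟩⟩
    rw [this]
    exact Submodule.fg_pi fun S => C.Gfg' _ _
  have h2 : (C.kc (univ : Finset (Fin c)) n E ⊓ LinearMap.ker (kd C.d f univ)).FG :=
    Submodule.FG.of_le h1 inf_le_left
  obtain ⟨G, hG⟩ := h2
  have h3 : ∀ x : Finset (Fin c) → C.X, ∃ s : R, ∃ E' : ℕ, x ∈ G → s ∈ T ∧
      ∃ η ∈ C.kc univ (n - 1) E', kd C.d f univ η = s • x := by
    intro x
    by_cases hx : x ∈ G
    · have hx' : x ∈ C.kc (univ : Finset (Fin c)) n E ⊓ LinearMap.ker (kd C.d f univ) := by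
        rw [← hG]; exact Submodule.subset_span hx
      obtain ⟨t, ht, e', η, hη, h4⟩ := h E x hx'.1 hx'.2
      exact ⟨t, e', fun _ => ⟨ht, η, hη, h4⟩⟩
    · exact ⟨0, 0, fun h => absurd h hx⟩
  choose s E' hs using h3
  refine ⟨∏ x ∈ G, s x, T.prod_mem fun x hx => (hs x hx).1, G.sup E', fun ω hω h0 => ?_⟩
  have h5 : ω ∈ Submodule.span R (G : Set (Finset (Fin c) → C.X)) := by
    rw [hG]; exact ⟨hω, h0⟩
  clear hω h0
  induction h5 using Submodule.span_induction with
  | mem x hx =>
    obtain ⟨_, η, hη, h4⟩ := hs x hx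
    refine ⟨(∏ y ∈ G.erase x, s y) • η,
      Submodule.smul_mem _ _ (kc_mono (Finset.le_sup (f := E') hx) hη), ?_⟩
    rw [map_smul, h4, smul_smul, Finset.prod_erase_mul _ _ hx]
  | zero => exact ⟨0, Submodule.zero_mem _, by simp⟩
  | add x y _ _ hx hy =>
    obtain ⟨η, hη, h4⟩ := hx
    obtain ⟨η', hη', h4'⟩ := hy
    exact ⟨η + η', Submodule.add_mem _ hη hη', by rw [map_add, h4, h4', smul_add]⟩
  | smul r x _ hx =>
    obtain ⟨η, hη, h4⟩ := hx
    exact ⟨r • η, Submodule.smul_mem _ _ hη, by rw [map_smul, h4, smul_comm]⟩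

/-- The uniform vanishing statement. -/
def TT (C : FGC R p) (f : Fin c → R) (T : Submonoid R) (n : ℤ) : Prop :=
  ∃ s ∈ T, ∃ j : ℕ, ∀ e : ℕ, ∀ b : Fin c → ℕ, (∀ k, b k ≤ p ^ e) →
    C.ZZ (fun k => f k ^ b k) s e (e + j) n

theorem TT.of_succ [hp : Fact p.Prime] [CharP R p] [IsNoetherianRing R] {f : Fin c → R}
    {T : Submonoid R} {n : ℤ} (h1 : C.TT f T (n + 1)) (h2 : C.Van f univ T n) :
    C.TT f T n := by
  obtain ⟨s1, hs1, J, hJ⟩ := h1
  obtain ⟨s2, hs2, E', hE'⟩ := h2.uniform (c * J)
  have h3 : C.ZZ f s2 (c * J) (c * J + E') n := fun ω hω h0 => by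
    obtain ⟨η, hη, h4⟩ := hE' ω hω h0
    exact ⟨1, η, kc_mono (by omega) hη, by rw [pow_one, h4]⟩
  refine ⟨s1 * s2, T.mul_mem hs1 hs2, c * J + E', fun e b hb => ?_⟩
  have claim : ∀ (r : ℕ) (b : Fin c → ℕ), (∀ k, b k ≤ p ^ e) →
      (univ.filter fun k => b k ≠ p ^ e).card ≤ r → ∀ e1, e ≤ e1 → e1 + r * J ≤ e + c * J →
      C.ZZ (fun k => f k ^ b k) (s1 * s2) e1 (e + (c * J + E')) n := by
    intro r
    induction r with
    | zero =>
      intro b _ hr e1 _ he1
      have hb' : ∀ k, b k = p ^ e := by
        intro k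
        by_contra hk
        have : (univ.filter fun k => b k ≠ p ^ e) = ∅ := by
          rw [← card_eq_zero]; omega
        have hk' : k ∈ univ.filter fun k => b k ≠ p ^ e := by simp [hk]
        rw [this] at hk'
        simp at hk'
      simp only [hb']
      rw [mul_comm s1 s2]
      refine ((h3.frob_iter e).mul_right s1).mono ?_ ?_
      · rw [zero_mul, add_zero] at he1; omega
      · omega
    | succ r ih =>
      intro b hb hr e1 he he1
      by_cases hall : ∀ k, b k = p ^ e
      · refine ih b hb ?_ e1 he ?_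
        · have : (univ.filter fun k => b k ≠ p ^ e) = ∅ := by
            ext k; simp [hall k]
          rw [this]; simp
        · rw [add_mul] at he1; omega
      · push Not at hall
        obtain ⟨k, hk⟩ := hall
        have hkb := hb k
        rw [add_mul, one_mul] at he1
        refine ZZ.step (k := k) (e1 := e1 + J) (f k ^ (p ^ e - b k)) ?_ ?_ (by omega) (by omega)
        · have := (hJ e1 (Function.update b k (p ^ e - b k)) ?_).mul_right s2
          · convert this using 1
            ext l
            by_cases hl : l = k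
            · subst hl; simp
            · simp [Function.update_of_ne hl]
          · intro l
            have hpe : p ^ e ≤ p ^ e1 := Nat.pow_le_pow_right hp.out.pos he
            by_cases hl : l = k
            · subst hl; rw [Function.update_self]; omega
            · rw [Function.update_of_ne hl]; exact (hb l).trans hpe
        · have := ih (Function.update b k (p ^ e)) ?_ ?_ (e1 + J) (by omega) (by omega)
          · convert this using 1
            ext l
            by_cases hl : l = k
            · subst hl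
              simp only [Function.update_self]
              rw [← pow_add]
              congr 1; omega
            · simp [Function.update_of_ne hl]
          · intro l
            by_cases hl : l = k
            · subst hl; rw [Function.update_self]
            · rw [Function.update_of_ne hl]; exact hb l
          · have : (univ.filter fun l => Function.update b k (p ^ e) l ≠ p ^ e) =
                (univ.filter fun l => b l ≠ p ^ e).erase k := by
              ext l
              by_cases hl : l = k
              · subst hl; simp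
              · simp [Function.update_of_ne hl, hl]
            rw [this, card_erase_of_mem (by simp [hk])]
            omega
  exact claim c b hb ((card_filter_le _ _).trans (by simp)) e le_rfl le_rfl

/-- **Uniform vanishing.** -/
theorem van_powers [hp : Fact p.Prime] [CharP R p] [IsNoetherianRing R] {f : Fin c → R}
    {T : Submonoid R} {i : ℤ} (hG : ∀ n e, i ≤ n → C.G n e = ⊥)
    (h : ∀ n, i ≤ n → C.Van f univ T n) : ∃ s ∈ T, C.Van f univ (Submonoid.powers s) i := by
  have h1 : ∀ m : ℕ, ∀ n, i ≤ n → i + c - n ≤ m → C.TT f T n := by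
    intro m
    induction m with
    | zero =>
      intro n _ hn'
      refine ⟨1, T.one_mem, 0, fun e b _ ω hω _ => ⟨0, 0, Submodule.zero_mem _, ?_⟩⟩
      have : ω = 0 := by
        ext S
        have h2 := (hω S).1
        have h3 : S.card ≤ c := by
          have := card_le_univ S
          simpa using this
        rw [hG _ _ (by push_cast at hn'; omega)] at h2
        exact h2
      rw [this, map_zero, smul_zero]
    | succ m ih =>
      intro n hn hn'
      exact TT.of_succ (ih (n + 1) (by omega) (by push_cast at hn' ⊢; omega)) (h n hn)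
  obtain ⟨s, hs, j, hj⟩ := h1 c i le_rfl (by omega)
  refine ⟨s, hs, fun e ω hω h0 => ?_⟩
  have := hj e (fun _ => 1) (fun _ => Nat.one_le_pow _ _ hp.out.pos)
  simp only [pow_one] at this
  obtain ⟨N, η, hη, h2⟩ := this ω hω h0
  exact ⟨s ^ N, ⟨N, rfl⟩, _, η, hη, h2⟩

end noeth

end FGC

end Pool.Agent.H67.FK
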