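import Mathlib

/-!
# Koszul cochains: exterior multiplication, contraction and the Koszul differential

Helper file (helper67) for `MP_95a866_al`.  A Koszul cochain with values in a module `X` is a
function `ω : Finset (Fin c) → X`, the coordinate at `S` being the coefficient of `e_S`.
-/

set_option autoImplicit false

open Finset

namespace Pool.Agent.H67.FK

section Sign

variable {c : ℕ}

/-- `(-1) ^ #{l ∈ S | l < k}` -/
def sg (k : Fin c) (S : Finset (Fin c)) : ℤ := (-1) ^ (S.filter (· < k)).card

lemma sg_mul_self (k : Fin c) (S : Finset (Fin c)) : sg k S * sg k S = 1 := by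
  unfold sg
  rw [← mul_pow]
  simp

lemma sg_erase_self (k : Fin c) (S : Finset (Fin c)) : sg k (S.erase k) = sg k S := by
  unfold sg
  congr 2
  ext l
  simp only [mem_filter, mem_erase]
  constructor
  · rintro ⟨⟨_, h⟩, h'⟩
    exact ⟨h, h'⟩
  · rintro ⟨h, h'⟩
    exact ⟨⟨h'.ne, h⟩, h'⟩

lemma sg_insert_self (k : Fin c) (S : Finset (Fin c)) : sg k (insert k S) = sg k S := by
  unfold sg
  congr 2
  ext l
  simp only [mem_filter, mem_insert]
  constructor
  · rintro ⟨h, h'⟩
    rcases h with h | h
    · exact absurd h h'.ne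
    · exact ⟨h, h'⟩
  · rintro ⟨h, h'⟩
    exact ⟨Or.inr h, h'⟩

lemma sg_erase_of_lt {k l : Fin c} {S : Finset (Fin c)} (hk : k ∈ S) (h : k < l) :
    sg l (S.erase k) = - sg l S := by
  unfold sg
  have : S.filter (· < l) = insert k ((S.erase k).filter (· < l)) := by
    ext m
    simp only [mem_filter, mem_insert, mem_erase]
    constructor
    · rintro ⟨h1, h2⟩
      by_cases hm : m = k
      · exact Or.inl hm
      · exact Or.inr ⟨⟨hm, h1⟩, h2⟩
    · rintro (h1 | h1)
      · subst h1; exact ⟨hk, h⟩
      · exact ⟨h1.1.2, h1.2⟩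
  rw [this, card_insert_of_notMem (by simp), pow_succ]
  ring

lemma sg_erase_of_gt {k l : Fin c} {S : Finset (Fin c)} (h : l < k) :
    sg l (S.erase k) = sg l S := by
  unfold sg
  congr 2
  ext m
  simp only [mem_filter, mem_erase]
  constructor
  · rintro ⟨⟨_, h1⟩, h2⟩
    exact ⟨h1, h2⟩
  · rintro ⟨h1, h2⟩
    exact ⟨⟨(h2.trans h).ne, h1⟩, h2⟩

lemma sg_insert_of_lt {k l : Fin c} {S : Finset (Fin c)} (hk : k ∉ S) (h : k < l) :
    sg l (insert k S) = - sg l S := by
  have := sg_erase_of_lt (mem_insert_self k S) h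
  rw [erase_insert hk] at this
  rw [this, neg_neg]

lemma sg_insert_of_gt {k l : Fin c} {S : Finset (Fin c)} (hk : k ∉ S) (h : l < k) :
    sg l (insert k S) = sg l S := by
  have := sg_erase_of_gt (S := insert k S) h
  rw [erase_insert hk] at this
  rw [this]

end Sign

section Ops

variable {R : Type*} [CommRing R] {c : ℕ} {X Y : Type*} [AddCommGroup X] [Module R X]
  [AddCommGroup Y] [Module R Y]

/-- exterior multiplication by `e_k` -/
def wed (R : Type*) [CommRing R] {X : Type*} [AddCommGroup X] [Module R X] (k : Fin c) :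
    (Finset (Fin c) → X) →ₗ[R] (Finset (Fin c) → X) where
  toFun ω S := if k ∈ S then sg k S • ω (S.erase k) else 0
  map_add' a b := by
    ext S
    by_cases h : k ∈ S <;> simp [h]
  map_smul' r a := by
    ext S
    by_cases h : k ∈ S
    · simp only [h, if_true, Pi.smul_apply, RingHom.id_apply]
      exact smul_comm _ _ _
    · simp [h]

/-- contraction with the `k`-th coordinate -/
def con (R : Type*) [CommRing R] {X : Type*} [AddCommGroup X] [Module R X] (k : Fin c) :
    (Finset (Fin c) → X) →ₗ[R] (Finset (Fin c) → X) where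
  toFun ω S := if k ∈ S then 0 else sg k S • ω (insert k S)
  map_add' a b := by
    ext S
    by_cases h : k ∈ S <;> simp [h]
  map_smul' r a := by
    ext S
    by_cases h : k ∈ S
    · simp [h]
    · simp only [h, if_false, Pi.smul_apply, RingHom.id_apply]
      exact smul_comm _ _ _

/-- the differential of the coefficients, with its sign -/
def dop (d : X →ₗ[R] Y) : (Finset (Fin c) → X) →ₗ[R] (Finset (Fin c) → Y) where
  toFun ω S := ((-1 : ℤ) ^ S.card) • d (ω S)
  map_add' a b := by
    ext S
    simp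
  map_smul' r a := by
    ext S
    simp only [Pi.smul_apply, RingHom.id_apply, map_smul]
    exact smul_comm _ _ _

lemma wed_apply (k : Fin c) (ω : Finset (Fin c) → X) (S : Finset (Fin c)) :
    wed R k ω S = if k ∈ S then sg k S • ω (S.erase k) else 0 := rfl

lemma con_apply (k : Fin c) (ω : Finset (Fin c) → X) (S : Finset (Fin c)) :
    con R k ω S = if k ∈ S then 0 else sg k S • ω (insert k S) := rfl

lemma dop_apply (d : X →ₗ[R] Y) (ω : Finset (Fin c) → X) (S : Finset (Fin c)) :
    dop d ω S = ((-1 : ℤ) ^ S.card) • d (ω S) := rfl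

lemma wed_wed (k : Fin c) (ω : Finset (Fin c) → X) : wed R k (wed R k ω) = 0 := by
  ext S
  by_cases h : k ∈ S <;> simp [wed_apply, h]

lemma wed_comm {k l : Fin c} (hkl : k ≠ l) (ω : Finset (Fin c) → X) :
    wed R k (wed R l ω) = - wed R l (wed R k ω) := by
  ext S
  by_cases hk : k ∈ S <;> by_cases hl : l ∈ S
  · simp only [wed_apply, hk, hl, if_true, Pi.neg_apply, mem_erase, ne_eq, hkl.symm, hkl,
      not_false_eq_true, and_true, smul_smul]
    rw [erase_right_comm]
    rcases lt_or_gt_of_ne hkl with h | h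
    · rw [sg_erase_of_lt hk h, sg_erase_of_gt h, ← neg_smul]
      congr 1; ring
    · rw [sg_erase_of_gt h, sg_erase_of_lt hl h, ← neg_smul]
      congr 1; ring
  · simp [wed_apply, hk, hl]
  · simp [wed_apply, hk, hl]
  · simp [wed_apply, hk, hl]

lemma con_con (k : Fin c) (ω : Finset (Fin c) → X) : con R k (con R k ω) = 0 := by
  ext S
  by_cases h : k ∈ S <;> simp [con_apply, h]

lemma con_wed_add (k : Fin c) (ω : Finset (Fin c) → X) :
    con R k (wed R k ω) + wed R k (con R k ω) = ω := by
  ext S
  by_cases h : k ∈ S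
  · simp only [con_apply, wed_apply, h, if_true, Pi.add_apply, zero_add, mem_erase, ne_eq,
      not_true_eq_false, false_and, if_false, smul_smul]
    rw [sg_erase_self, sg_mul_self, one_smul, insert_erase h]
  · simp only [con_apply, wed_apply, h, if_false, mem_insert_self, if_true, Pi.add_apply,
      add_zero, smul_smul]
    rw [sg_insert_self, sg_mul_self, one_smul, erase_insert h]

lemma con_wed {k l : Fin c} (hkl : k ≠ l) (ω : Finset (Fin c) → X) :
    con R k (wed R l ω) = - wed R l (con R k ω) := by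
  ext S
  by_cases hk : k ∈ S <;> by_cases hl : l ∈ S
  · simp [con_apply, wed_apply, hk, hl, hkl]
  · simp [con_apply, wed_apply, hk, hl]
  · simp only [con_apply, wed_apply, hk, hl, if_true, if_false, Pi.neg_apply, mem_insert,
      mem_erase, ne_eq, hkl.symm, hkl, not_false_eq_true, or_true, and_false, smul_smul]
    rw [erase_insert_of_ne hkl]
    rcases lt_or_gt_of_ne hkl with h | h
    · rw [sg_insert_of_lt hk h, sg_erase_of_gt h, ← neg_smul]
      congr 1; ring
    · rw [sg_insert_of_gt hk h, sg_erase_of_lt hl h, ← neg_smul]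
      congr 1; ring
  · simp [con_apply, wed_apply, hk, hl, hkl.symm]

lemma dop_dop {d : X →ₗ[R] X} (hd : ∀ x, d (d x) = 0) (ω : Finset (Fin c) → X) :
    dop d (dop d ω) = 0 := by
  ext S
  simp [dop_apply, hd]

lemma dop_wed (d : X →ₗ[R] Y) (k : Fin c) (ω : Finset (Fin c) → X) :
    dop d (wed R k ω) = - wed R k (dop d ω) := by
  ext S
  by_cases h : k ∈ S
  · simp only [dop_apply, wed_apply, h, if_true, Pi.neg_apply, map_zsmul, smul_smul]
    rw [← card_erase_add_one h, pow_succ, ← neg_smul]
    congr 1; ring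
  · simp [dop_apply, wed_apply, h]

lemma dop_con (d : X →ₗ[R] Y) (k : Fin c) (ω : Finset (Fin c) → X) :
    dop d (con R k ω) = - con R k (dop d ω) := by
  ext S
  by_cases h : k ∈ S
  · simp [dop_apply, con_apply, h]
  · simp only [dop_apply, con_apply, h, if_false, Pi.neg_apply, map_zsmul, smul_smul]
    rw [card_insert_of_notMem h, pow_succ, ← neg_smul]
    congr 1; ring

/-- the Koszul differential on the cochains supported on the subsets of `J` -/
def kd (d : X →ₗ[R] X) (g : Fin c → R) (J : Finset (Fin c)) :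
    (Finset (Fin c) → X) →ₗ[R] (Finset (Fin c) → X) :=
  dop d + ∑ k ∈ J, g k • wed R k

lemma kd_apply (d : X →ₗ[R] X) (g : Fin c → R) (J : Finset (Fin c)) (ω : Finset (Fin c) → X) :
    kd d g J ω = dop d ω + ∑ k ∈ J, g k • wed R k ω := by
  simp [kd]

lemma kd_empty (d : X →ₗ[R] X) (g : Fin c → R) (ω : Finset (Fin c) → X) :
    kd d g ∅ ω = dop d ω := by
  simp [kd_apply]

lemma kd_insert (d : X →ₗ[R] X) (g : Fin c → R) {J : Finset (Fin c)} {k : Fin c} (hk : k ∉ J)
    (ω : Finset (Fin c) → X) :
    kd d g (insert k J) ω = kd d g J ω + g k • wed R k ω := by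
  rw [kd_apply, kd_apply, sum_insert hk]
  abel

lemma kd_wed (d : X →ₗ[R] X) (g : Fin c → R) {J : Finset (Fin c)} {k : Fin c} (hk : k ∉ J)
    (ω : Finset (Fin c) → X) : kd d g J (wed R k ω) = - wed R k (kd d g J ω) := by
  rw [kd_apply, kd_apply, map_add, dop_wed, map_sum, neg_add, ← sum_neg_distrib]
  congr 1
  refine sum_congr rfl fun l hl => ?_
  rw [map_smul, wed_comm (show l ≠ k from fun h => hk (h ▸ hl)), smul_neg]

lemma kd_con (d : X →ₗ[R] X) (g : Fin c → R) {J : Finset (Fin c)} {k : Fin c} (hk : k ∉ J)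
    (ω : Finset (Fin c) → X) : kd d g J (con R k ω) = - con R k (kd d g J ω) := by
  rw [kd_apply, kd_apply, map_add, dop_con, map_sum, neg_add, ← sum_neg_distrib]
  congr 1
  refine sum_congr rfl fun l hl => ?_
  rw [map_smul, con_wed (show k ≠ l from fun h => hk (h ▸ hl)), smul_neg, neg_neg]

/-- null homotopy -/
lemma kd_con_of_mem (d : X →ₗ[R] X) (g : Fin c → R) {J : Finset (Fin c)} {k : Fin c} (hk : k ∈ J)
    (ω : Finset (Fin c) → X) : kd d g J (con R k ω) + con R k (kd d g J ω) = g k • ω := by
  rw [← insert_erase hk, kd_insert d g (notMem_erase k J), kd_insert d g (notMem_erase k J),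
    kd_con d g (notMem_erase k J), map_add, map_smul]
  conv_rhs => rw [← con_wed_add (R := R) k ω, smul_add]
  abel

lemma kd_kd {d : X →ₗ[R] X} (hd : ∀ x, d (d x) = 0) (g : Fin c → R) (J : Finset (Fin c))
    (ω : Finset (Fin c) → X) : kd d g J (kd d g J ω) = 0 := by
  induction J using Finset.induction_on with
  | empty => rw [kd_empty, kd_empty, dop_dop hd]
  | insert k J hk ih =>
    rw [kd_insert d g hk, kd_insert d g hk, map_add, ih, map_smul, kd_wed d g hk, map_add,
      map_smul, wed_wed, smul_zero, add_zero, zero_add, smul_neg]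
    simp

end Ops

end Pool.Agent.H67.FK
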