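import Pool.Agent.H67.FK.LemA

/-!
# Truncation of complexes of `F`-finite `F`-modules

Helper file (helper67) for `MP_95a866_al`.
-/

set_option autoImplicit false

open Finset

universe u

namespace Pool.Agent.H67.FK

namespace FGC

variable {R : Type u} [CommRing R] {p c : ℕ}

/-- the cohomology in degree `n` vanishes after localization at `T` -/
def Tors (C : FGC R p) (T : Submonoid R) (n : ℤ) : Prop :=
  ∀ e, ∀ u ∈ C.G n e, C.d u = 0 → ∃ t ∈ T, ∃ e', ∃ w ∈ C.G (n - 1) e', C.d w = t • u

lemma single_mem_empty {C : FGC R p} {n : ℤ} {e : ℕ} {x : C.X} (h : x ∈ C.G n e) :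
    (Pi.single ∅ x : Finset (Fin c) → C.X) ∈ C.kc ∅ n e := by
  intro S
  by_cases hS : S = ∅
  · subst hS
    rw [Pi.single_eq_same]
    refine ⟨by simpa using h, fun h => absurd (subset_refl _) h⟩
  · rw [Pi.single_eq_of_ne hS]
    exact ⟨Submodule.zero_mem _, fun _ => rfl⟩

lemma tors_iff {C : FGC R p} {T : Submonoid R} {n : ℤ} (g : Fin c → R) :
    C.Tors T n ↔ C.Van g ∅ T n := by
  constructor
  · intro h e ω hω h0
    rw [kd_empty] at h0
    have h1 := (hω ∅).1
    rw [card_empty, Nat.cast_zero, sub_zero] at h1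
    have h2 := congrFun h0 ∅
    rw [dop_apply, card_empty, pow_zero, one_smul] at h2
    obtain ⟨t, ht, e', w, hw, h3⟩ := h e _ h1 h2
    refine ⟨t, ht, e', Pi.single ∅ w, single_mem_empty hw, ?_⟩
    rw [kd_empty]
    ext S
    rw [dop_apply]
    by_cases hS : S = ∅
    · subst hS
      rw [Pi.single_eq_same, card_empty, pow_zero, one_smul, h3]
      rfl
    · rw [Pi.single_eq_of_ne hS, map_zero, smul_zero, Pi.smul_apply,
        (hω S).2 fun h => hS (subset_empty.1 h), smul_zero]
  · intro h e u hu h0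
    obtain ⟨t, ht, e', η, hη, h3⟩ := h e (Pi.single ∅ u) (single_mem_empty hu) (by
      rw [kd_empty]
      ext S
      rw [dop_apply]
      by_cases hS : S = ∅
      · subst hS
        rw [Pi.single_eq_same, h0, smul_zero]
        rfl
      · rw [Pi.single_eq_of_ne hS, map_zero, smul_zero]
        rfl)
    refine ⟨t, ht, e', η ∅, by simpa using (hη ∅).1, ?_⟩
    have := congrFun h3 ∅
    rw [kd_empty, dop_apply, card_empty, pow_zero, one_smul, Pi.smul_apply,
      Pi.single_eq_same] at this
    exact this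

set_option linter.unusedSectionVars false

variable [hp : Fact p.Prime] [CharP R p] [IsNoetherianRing R]

/-- the truncation in the degrees `< i` -/
@[reducible] def trunc (C : FGC R p) (i : ℤ) : FGC R p where
  X := C.X
  d := C.d
  dd := C.dd
  φ := C.φ
  φs := C.φs
  φd := C.φd
  feq := C.feq
  G n e := if n + 1 < i then C.G n e else if n + 1 = i then C.G n e ⊓ LinearMap.ker C.d else ⊥
  Gmono n e := by
    split_ifs
    · exact C.Gmono n e
    · exact inf_le_inf_right _ (C.Gmono n e)
    · exact le_rfl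
  Gd n e x hx := by
    by_cases h1 : n + 1 < i
    · rw [if_pos h1] at hx
      by_cases h2 : n + 1 + 1 < i
      · rw [if_pos h2]
        exact C.Gd n e x hx
      · rw [if_neg h2, if_pos (by omega)]
        exact ⟨C.Gd n e x hx, C.dd x⟩
    · rw [if_neg h1] at hx
      have : C.d x = 0 := by
        split_ifs at hx
        · exact hx.2
        · rw [(Submodule.mem_bot R).1 hx, map_zero]
      rw [this]
      exact Submodule.zero_mem _
  Gspan n e := by
    split_ifs
    · exact C.Gspan n e
    · refine le_antisymm ?_ ?_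
      · rintro x ⟨hx, hx0⟩
        rw [SetLike.mem_coe, C.Gspan] at hx
        exact mem_span_ker C.φ C.φs C.feq C.d C.d (fun x => (C.φd x).symm) _ hx hx0
      · refine Submodule.span_le.2 ?_
        rintro _ ⟨x, ⟨hx, hx0⟩, rfl⟩
        refine ⟨?_, ?_⟩
        · rw [SetLike.mem_coe, C.Gspan]
          exact Submodule.subset_span ⟨x, hx, rfl⟩
        · rw [SetLike.mem_coe, LinearMap.mem_ker] at hx0 ⊢
          rw [← C.φd, hx0, map_zero]
    · symm
      rw [Submodule.span_eq_bot]
      rintro _ ⟨x, hx, rfl⟩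
      rw [SetLike.mem_coe, Submodule.mem_bot] at hx
      rw [hx, map_zero]
  Gfg n := by
    split_ifs
    · exact C.Gfg n
    · exact Submodule.FG.of_le (C.Gfg n) inf_le_left
    · exact Submodule.fg_bot

lemma trunc_G_le (C : FGC R p) (i n : ℤ) (e : ℕ) : (C.trunc i).G n e ≤ C.G n e := by
  change (if n + 1 < i then C.G n e else if n + 1 = i then C.G n e ⊓ LinearMap.ker C.d else ⊥) ≤ _
  split_ifs
  · exact le_rfl
  · exact inf_le_left
  · exact bot_le

lemma trunc_G_of_lt (C : FGC R p) {i n : ℤ} (h : n + 1 < i) (e : ℕ) :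
    (C.trunc i).G n e = C.G n e := if_pos h

lemma trunc_G_of_eq (C : FGC R p) {i n : ℤ} (h : n + 1 = i) (e : ℕ) :
    (C.trunc i).G n e = C.G n e ⊓ LinearMap.ker C.d := by
  change (if n + 1 < i then C.G n e else if n + 1 = i then C.G n e ⊓ LinearMap.ker C.d else ⊥) = _
  rw [if_neg (by omega), if_pos h]

lemma trunc_G_of_ge (C : FGC R p) {i n : ℤ} (h : i ≤ n) (e : ℕ) :
    (C.trunc i).G n e = ⊥ := by
  change (if n + 1 < i then C.G n e else if n + 1 = i then C.G n e ⊓ LinearMap.ker C.d else ⊥) = _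
  rw [if_neg (by omega), if_neg (by omega)]

lemma trunc_kc_le (C : FGC R p) (i : ℤ) (J : Finset (Fin c)) (n : ℤ) (e : ℕ) :
    (C.trunc i).kc J n e ≤ C.kc J n e :=
  fun _ hω S => ⟨trunc_G_le C i _ _ (hω S).1, (hω S).2⟩

lemma kd_apply_empty (C : FGC R p) (f : Fin c → R) (J : Finset (Fin c))
    (ω : Finset (Fin c) → C.X) : kd C.d f J ω ∅ = C.d (ω ∅) := by
  rw [kd_apply, Pi.add_apply, dop_apply, card_empty, pow_zero, one_smul, Finset.sum_apply,
    sum_eq_zero, add_zero]
  intro k _
  rw [Pi.smul_apply, wed_apply, if_neg (notMem_empty k), smul_zero]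

lemma trunc_tors (C : FGC R p) (i : ℤ) {T : Submonoid R} {n : ℤ} (h : C.Tors T n) :
    (C.trunc i).Tors T n := by
  intro e u hu h0
  by_cases hn : n < i
  · obtain ⟨t, ht, e', w, hw, h1⟩ := h e u (trunc_G_le C i n e hu) h0
    exact ⟨t, ht, e', w, by rwa [trunc_G_of_lt C (by omega)], h1⟩
  · rw [trunc_G_of_ge C (by omega), Submodule.mem_bot] at hu
    exact ⟨1, T.one_mem, 0, 0, Submodule.zero_mem _, by rw [hu, map_zero, smul_zero]⟩

theorem trunc_van (C : FGC R p) (i : ℤ) {f : Fin c → R} {T : Submonoid R}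
    (h : C.Van f univ T i) : (C.trunc i).Van f univ T i := by
  intro e ω hω h0
  obtain ⟨t, ht, e', η, hη, h1⟩ := h e ω (trunc_kc_le C i _ _ _ hω) h0
  refine ⟨t, ht, e', η, fun S => ⟨?_, fun h' => absurd (subset_univ _) h'⟩, h1⟩
  by_cases hS : S = ∅
  · subst hS
    have h2 := (hη ∅).1
    rw [trunc_G_of_eq C (by rw [card_empty]; push_cast; ring)]
    refine ⟨h2, ?_⟩
    rw [SetLike.mem_coe, LinearMap.mem_ker, ← kd_apply_empty C f univ η]
    have h3 := (hω ∅).1
    rw [trunc_G_of_ge C (by rw [card_empty]; push_cast; omega), Submodule.mem_bot] at h3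
    have h4 := congrFun h1 ∅
    change kd C.d f univ η ∅ = t • ω ∅ at h4
    rw [h4, h3, smul_zero]
  · have h2 : 0 < S.card := card_pos.2 (nonempty_iff_ne_empty.2 hS)
    rw [trunc_G_of_lt C (by omega)]
    exact (hη S).1

theorem van_of_trunc (C : FGC R p) (i : ℤ) {f : Fin c → R} {T : Submonoid R}
    (h : (C.trunc i).Van f univ T i) (h' : C.Tors T i) : C.Van f univ T i := by
  intro e ω hω h0
  have h1 := (hω ∅).1
  rw [card_empty, Nat.cast_zero, sub_zero] at h1
  have h2 : C.d (ω ∅) = 0 := by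
    rw [← kd_apply_empty C f univ ω, h0]; rfl
  obtain ⟨t, ht, e', w, hw, h3⟩ := h' e _ h1 h2
  set η0 : Finset (Fin c) → C.X := Pi.single ∅ w with hη0
  have hη0m : η0 ∈ C.kc univ (i - 1) e' := by
    have := single_mem_empty (c := c) hw
    exact fun S => ⟨(this S).1, fun h' => absurd (subset_univ _) h'⟩
  set ω' := t • ω - kd C.d f univ η0 with hω'
  have hω'm : ω' ∈ C.kc univ i (max e e') := by
    refine Submodule.sub_mem _ (Submodule.smul_mem _ _ (kc_mono (le_max_left _ _) hω)) ?_
    have := kd_mem f (kc_mono (le_max_right e e') hη0m)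
    rwa [sub_add_cancel] at this
  have hc' : kd C.d f univ ω' = 0 := by
    rw [hω', map_sub, map_smul, h0, smul_zero, kd_kd C.dd, sub_zero]
  have he' : ω' ∅ = 0 := by
    rw [hω', Pi.sub_apply, kd_apply_empty, hη0, Pi.single_eq_same, h3, Pi.smul_apply, sub_self]
  have hm' : ω' ∈ (C.trunc i).kc univ i (max e e') := by
    intro S
    refine ⟨?_, fun h' => absurd (subset_univ _) h'⟩
    by_cases hS : S = ∅
    · subst hS
      rw [he']
      exact Submodule.zero_mem _
    · have h4 : 0 < S.card := card_pos.2 (nonempty_iff_ne_empty.2 hS)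
      by_cases h5 : S.card = 1
      · rw [trunc_G_of_eq C (by rw [h5]; push_cast; ring)]
        refine ⟨(hω'm S).1, ?_⟩
        rw [SetLike.mem_coe, LinearMap.mem_ker]
        have h6 := congrFun hc' S
        rw [kd_apply, Pi.add_apply, dop_apply, h5, Finset.sum_apply, sum_eq_zero, add_zero] at h6
        · simpa using h6
        · intro k _
          rw [Pi.smul_apply, wed_apply]
          split_ifs with hk
          · have : S.erase k = ∅ := by
              rw [← card_eq_zero, card_erase_of_mem hk, h5]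
            rw [this, he', smul_zero, smul_zero]
          · rw [smul_zero]
      · rw [trunc_G_of_lt C (by omega)]
        exact (hω'm S).1
  obtain ⟨t', ht', e'', η', hη', h6⟩ := h _ ω' hm' hc'
  have h7 : (η' : Finset (Fin c) → C.X) ∈ C.kc univ (i - 1) e'' := trunc_kc_le C i _ _ _ hη'
  refine ⟨t' * t, T.mul_mem ht' ht, max e'' e', (η' : Finset (Fin c) → C.X) + t' • η0,
    Submodule.add_mem _
    (kc_mono (le_max_left _ _) h7)
    (Submodule.smul_mem _ _ (kc_mono (le_max_right _ _) hη0m)), ?_⟩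
  change kd C.d f univ η' = _ at h6
  rw [map_add, map_smul, h6, hω', smul_sub, mul_smul]
  abel

end FGC

end Pool.Agent.H67.FK
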